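import Mathlib

/-!
Words on finite vector spaces and counting lemmas.
-/

set_option linter.unusedSectionVars false
set_option linter.style.haveILetI false

namespace Pool.Agent.Helper58.Cyl

open Module

universe u

/-- A word on a vector space `V` over a finite field `K`: a function that vanishes at `0`, is
constant on punctured lines through the origin and satisfies the line condition. -/
structure IsWord (K : Type*) [Field K] [Fintype K] {V : Type*} [AddCommGroup V] [Module K V]
    {A : Type*} [AddCommGroup A] (F : V → A) : Prop where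
  zero : F 0 = 0
  smul : ∀ (a : K) (v : V), a ≠ 0 → F (a • v) = F v
  line : ∀ u v : V, F u + ∑ a : K, F (v + a • u) = 0

section words

variable {K : Type*} [Field K] [Fintype K]
variable {V : Type*} [AddCommGroup V] [Module K V]
variable {W : Type*} [AddCommGroup W] [Module K W]
variable {A : Type*} [AddCommGroup A] {B : Type*} [AddCommGroup B]

theorem IsWord.comp {F : V → A} (hF : IsWord K F) (f : W →ₗ[K] V) :
    IsWord K (fun w => F (f w)) where
  zero := by simp [hF.zero]
  smul a v ha := by simp [hF.smul a (f v) ha]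
  line u v := by simpa using hF.line (f u) (f v)

theorem IsWord.sub {F G : V → A} (hF : IsWord K F) (hG : IsWord K G) :
    IsWord K (fun w => F w - G w) where
  zero := by simp [hF.zero, hG.zero]
  smul a v ha := by simp [hF.smul a v ha, hG.smul a v ha]
  line u v := by
    have h1 := hF.line u v
    have h2 := hG.line u v
    rw [Finset.sum_sub_distrib]
    have : F u - G u + (∑ a : K, F (v + a • u) - ∑ a : K, G (v + a • u))
      = (F u + ∑ a : K, F (v + a • u)) - (G u + ∑ a : K, G (v + a • u)) := by abel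
    rw [this, h1, h2, sub_zero]

theorem IsWord.map {F : V → A} (hF : IsWord K F) (f : A →+ B) :
    IsWord K (fun w => f (F w)) where
  zero := by simp [hF.zero]
  smul a v ha := by simp [hF.smul a v ha]
  line u v := by
    have h1 := hF.line u v
    have h2 := congrArg f h1
    simpa using h2

theorem IsWord.restrict {F : V → A} (hF : IsWord K F) (U : Submodule K V) :
    IsWord K (fun w : U => F w) := hF.comp U.subtype

theorem IsWord.exists_ne {F : V → A} (hF : IsWord K F) {v : V} (hv : F v ≠ 0) (w : V) :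
    ∃ a : K, F (w + a • v) ≠ 0 := by
  by_contra h
  push Not at h
  have := hF.line v w
  simp [h] at this
  exact hv this

theorem IsWord.ne_zero {F : V → A} (hF : IsWord K F) {v : V} (hv : F v ≠ 0) : v ≠ 0 := by
  rintro rfl
  exact hv hF.zero

end words

section cnt

variable {K : Type*} [Field K] [Fintype K]
variable {V : Type*} [AddCommGroup V] [Module K V]
variable {W : Type*} [AddCommGroup W] [Module K W]
variable {A : Type*} [AddCommGroup A]

/-- The number of vectors `v` with `P v` at which `F` does not vanish. -/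
noncomputable def cnt (F : V → A) (P : V → Prop) : ℕ := {v | P v ∧ F v ≠ 0}.ncard

open Classical in
theorem cnt_eq_sum [Fintype V] (F : V → A) (P : V → Prop) :
    cnt F P = ∑ v : V, if P v ∧ F v ≠ 0 then 1 else 0 := by
  rw [cnt, Set.ncard_eq_toFinset_card', ← Finset.card_filter]
  congr 1
  ext v
  simp

theorem cnt_congr {F : V → A} {P Q : V → Prop} (h : ∀ v, F v ≠ 0 → (P v ↔ Q v)) :
    cnt F P = cnt F Q := by
  unfold cnt
  congr 1
  ext v
  simp only [Set.mem_ofPred_eq]
  constructor
  · rintro ⟨h1, h2⟩; exact ⟨(h v h2).1 h1, h2⟩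
  · rintro ⟨h1, h2⟩; exact ⟨(h v h2).2 h1, h2⟩

theorem cnt_mono [Finite V] {F : V → A} {P Q : V → Prop} (h : ∀ v, F v ≠ 0 → P v → Q v) :
    cnt F P ≤ cnt F Q := by
  unfold cnt
  apply Set.ncard_le_ncard _ (Set.toFinite _)
  rintro v ⟨h1, h2⟩
  exact ⟨h v h2 h1, h2⟩

theorem cnt_pos_iff [Finite V] {F : V → A} {P : V → Prop} :
    0 < cnt F P ↔ ∃ v, P v ∧ F v ≠ 0 := by
  unfold cnt
  rw [Set.ncard_pos (Set.toFinite _)]
  rfl

theorem cnt_eq_zero_iff [Finite V] {F : V → A} {P : V → Prop} :
    cnt F P = 0 ↔ ∀ v, P v → F v = 0 := by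
  have h := cnt_pos_iff (F := F) (P := P)
  constructor
  · intro h0 v hv
    by_contra hF
    have := h.2 ⟨v, hv, hF⟩
    omega
  · intro h0
    by_contra hne
    obtain ⟨v, hv, hF⟩ := h.1 (Nat.pos_of_ne_zero hne)
    exact hF (h0 v hv)

theorem cnt_comp {F : V → A} {P : V → Prop} (f : W → V) (hf : Function.Injective f)
    (hP : ∀ v, P v → F v ≠ 0 → v ∈ Set.range f) :
    cnt (fun w => F (f w)) (fun w => P (f w)) = cnt F P := by
  unfold cnt
  rw [← Set.ncard_image_of_injective _ hf]
  congr 1
  ext v
  simp only [Set.mem_image, Set.mem_ofPred_eq]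
  constructor
  · rintro ⟨w, hw, rfl⟩; exact hw
  · rintro ⟨h1, h2⟩
    obtain ⟨w, rfl⟩ := hP v h1 h2
    exact ⟨w, ⟨h1, h2⟩, rfl⟩

theorem cnt_subtype {F : V → A} {P : V → Prop} (U : Submodule K V) :
    cnt (fun w : U => F w) (fun w : U => P w) = cnt F (fun v => v ∈ U ∧ P v) := by
  have := cnt_comp (F := F) (P := fun v => v ∈ U ∧ P v) (fun w : U => (w : V))
    Subtype.coe_injective (fun v hv _ => by simpa using hv.1)
  rw [← this]
  apply cnt_congr
  intro v _
  simp

/-- The pencil identity. -/
theorem pencil [Finite V] (F : V → A) (P : V → Prop) (φ₁ φ₂ : Dual K V) :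
    cnt F (fun v => P v ∧ φ₁ v = 0) + ∑ c : K, cnt F (fun v => P v ∧ (φ₂ + c • φ₁) v = 0)
      = cnt F P + Fintype.card K * cnt F (fun v => P v ∧ φ₁ v = 0 ∧ φ₂ v = 0) := by
  classical
  haveI := Fintype.ofFinite V
  simp only [cnt_eq_sum]
  rw [Finset.sum_comm, ← Finset.sum_add_distrib, Finset.mul_sum, ← Finset.sum_add_distrib]
  refine Finset.sum_congr rfl fun v _ => ?_
  by_cases hP : P v
  swap
  · simp [hP]
  by_cases hF : F v = 0
  · simp [hF]
  by_cases h1 : φ₁ v = 0
  · by_cases h2 : φ₂ v = 0
    · simp [hP, hF, h1, h2]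
    · simp [hP, hF, h1, h2]
  · have : ∀ c : K, (P v ∧ (φ₂ + c • φ₁) v = 0) ∧ F v ≠ 0 ↔ - (φ₂ v) / φ₁ v = c := by
      intro c
      simp only [hP, hF, LinearMap.add_apply, LinearMap.smul_apply, smul_eq_mul, true_and, ne_eq,
        not_false_eq_true, and_true]
      rw [div_eq_iff h1]
      constructor
      · intro h; linear_combination -h
      · intro h; linear_combination -h
    simp only [this]
    simp [h1, hP, hF]

theorem card_mul_card_ker [Finite W] (f : W →ₗ[K] K) (hf : f ≠ 0) :
    Fintype.card K * Nat.card (LinearMap.ker f) = Nat.card W := by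
  have h := Submodule.card_eq_card_quotient_mul_card (LinearMap.ker f)
  have hs : Function.Surjective f := by
    apply LinearMap.surjective_of_ne_zero hf
  have e := (f.quotKerEquivOfSurjective hs).toEquiv
  rw [h, Nat.card_congr e, Nat.card_eq_fintype_card (α := K)]
  ring

/-- The averaging identity over a space `S` of functionals. -/
theorem average [Finite V] (F : V → A) (S : Submodule K (Dual K V)) [Fintype S] :
    Fintype.card K * ∑ φ : S, cnt F (fun v => (φ : Dual K V) v = 0)
      = Nat.card S * (cnt F (fun _ => True) +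
          (Fintype.card K - 1) * cnt F (fun v => ∀ φ ∈ S, φ v = 0)) := by
  classical
  haveI := Fintype.ofFinite V
  simp only [cnt_eq_sum]
  rw [Finset.sum_comm, Finset.mul_sum, Finset.mul_sum, ← Finset.sum_add_distrib, Finset.mul_sum]
  refine Finset.sum_congr rfl fun v _ => ?_
  by_cases hF : F v = 0
  · simp [hF]
  by_cases hS : ∀ φ ∈ S, φ v = 0
  · have h1 : ∀ φ : S, ((φ : Dual K V) v = 0 ∧ F v ≠ 0) := fun φ => ⟨hS φ φ.2, hF⟩
    have hq : 0 < Fintype.card K := Fintype.card_pos
    have h2 : (∀ φ ∈ S, φ v = 0) ∧ F v ≠ 0 := ⟨hS, hF⟩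
    have h3 : True ∧ F v ≠ 0 := ⟨trivial, hF⟩
    rw [if_pos h2, if_pos h3]
    simp only [h1, Nat.card_eq_fintype_card]
    have : 1 + (Fintype.card K - 1) = Fintype.card K := by omega
    simp [this, hF, mul_comm]
  · have hne : (Dual.eval K V v).comp S.subtype ≠ 0 := by
      intro h0
      apply hS
      intro φ hφ
      have := congrArg (fun g => g ⟨φ, hφ⟩) h0
      simpa using this
    have h2 := card_mul_card_ker (W := S) ((Dual.eval K V v).comp S.subtype) hne
    have h3 : (∑ φ : S, if (φ : Dual K V) v = 0 ∧ F v ≠ 0 then 1 else 0)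
        = Nat.card (LinearMap.ker ((Dual.eval K V v).comp S.subtype)) := by
      rw [← Finset.card_filter, Nat.card_eq_fintype_card, Fintype.card_subtype]
      congr 1
      ext φ
      simp [hF]
    rw [h3, h2]
    simp [hF, hS]

/-- Fewer than `q` nonzero functionals do not cover the space. -/
theorem avoid [Finite V] (T : Finset (Dual K V)) (hT : T.card < Fintype.card K)
    (h0 : ∀ φ ∈ T, φ ≠ 0) : ∃ v : V, ∀ φ ∈ T, φ v ≠ 0 := by
  classical
  haveI := Fintype.ofFinite V
  by_contra hcon
  push Not at hcon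
  have h1 : (Finset.univ : Finset V) ⊆ T.biUnion (fun φ => Finset.univ.filter (fun v => φ v = 0)) := by
    intro v _
    obtain ⟨φ, hφ, hv⟩ := hcon v
    simp only [Finset.mem_biUnion, Finset.mem_filter, Finset.mem_univ, true_and]
    exact ⟨φ, hφ, hv⟩
  have h2 := Finset.card_le_card h1
  have h3 := h2.trans Finset.card_biUnion_le
  have h4 : ∀ φ ∈ T, Fintype.card K * (Finset.univ.filter (fun v => φ v = 0)).card
      = Fintype.card V := by
    intro φ hφ
    have := card_mul_card_ker φ (h0 φ hφ)
    rw [Nat.card_eq_fintype_card (α := V), Nat.card_eq_fintype_card, Fintype.card_subtype] at this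
    rw [← this]
    congr 2
  have h5 : Fintype.card K * Fintype.card V ≤ T.card * Fintype.card V := by
    calc Fintype.card K * Fintype.card V
        ≤ Fintype.card K * ∑ φ ∈ T, (Finset.univ.filter (fun v => φ v = 0)).card :=
          Nat.mul_le_mul_left _ (by simpa using h3)
      _ = ∑ φ ∈ T, Fintype.card K * (Finset.univ.filter (fun v => φ v = 0)).card := by
          rw [Finset.mul_sum]
      _ = ∑ φ ∈ T, Fintype.card V := Finset.sum_congr rfl h4
      _ = T.card * Fintype.card V := by simp
  have h6 : 0 < Fintype.card V := Fintype.card_pos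
  have := Nat.le_of_mul_le_mul_right h5 h6
  omega

end cnt

section separation

variable {K : Type*} [Field K]
variable {V : Type*} [AddCommGroup V] [Module K V]

/-- A functional that vanishes on `U` and is one at `v`. -/
theorem exists_functional (U : Submodule K V) {v : V} (hv : v ∉ U) :
    ∃ φ : Dual K V, φ v = 1 ∧ ∀ u ∈ U, φ u = 0 := by
  obtain ⟨f, hf1, hf2⟩ := Submodule.exists_le_ker_of_notMem hv
  refine ⟨(f v)⁻¹ • f, by simp [hf1], fun u hu => ?_⟩
  have := hf2 hu
  simp only [LinearMap.mem_ker] at this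
  simp [this]

end separation

section proj

variable {K : Type*} [Field K] [Fintype K]
variable {V : Type*} [AddCommGroup V] [Module K V]
variable {A : Type*} [AddCommGroup A]

open scoped LinearAlgebra.Projectivization

theorem ncard_proj [Finite V] (Y : Set (ℙ K V)) :
    {v : V | ∃ h : v ≠ 0, Projectivization.mk K v h ∈ Y}.ncard
      = (Fintype.card K - 1) * Y.ncard := by
  classical
  have hmk : ∀ (P : ℙ K V) (a : Kˣ) (h : a • P.rep ≠ 0), Projectivization.mk K (a • P.rep) h = P := by
    intro P a h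
    conv_rhs => rw [← P.mk_rep]
    rw [Projectivization.mk_eq_mk_iff]
    exact ⟨a, rfl⟩
  have hne : ∀ (P : ℙ K V) (a : Kˣ), a • P.rep ≠ 0 := by
    intro P a
    rw [Units.smul_def]
    exact smul_ne_zero a.ne_zero P.rep_nonzero
  let f : Y × Kˣ → {v : V // ∃ h : v ≠ 0, Projectivization.mk K v h ∈ Y} :=
    fun x => ⟨x.2 • x.1.1.rep, hne _ _, by rw [hmk]; exact x.1.2⟩
  have hf : Function.Bijective f := by
    constructor
    · rintro ⟨⟨P, hP⟩, a⟩ ⟨⟨Q, hQ⟩, b⟩ h
      have h1 : a • P.rep = b • Q.rep := congrArg Subtype.val h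
      have h2 : P = Q := by
        rw [← hmk P a (hne P a), ← hmk Q b (hne Q b)]
        congr 1
      subst h2
      have h3 : (a : K) = b := by
        have : ((a : K) - b) • P.rep = 0 := by
          rw [sub_smul, ← Units.smul_def, ← Units.smul_def, h1, sub_self]
        rcases smul_eq_zero.1 this with h4 | h4
        · exact sub_eq_zero.1 h4
        · exact absurd h4 P.rep_nonzero
      have h4 : a = b := Units.ext h3
      subst h4
      rfl
    · rintro ⟨v, hv, hvY⟩
      obtain ⟨a, ha⟩ := Projectivization.exists_smul_eq_mk_rep K v hv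
      refine ⟨⟨⟨Projectivization.mk K v hv, hvY⟩, a⁻¹⟩, ?_⟩
      apply Subtype.ext
      change a⁻¹ • (Projectivization.mk K v hv).rep = v
      rw [← ha, inv_smul_smul]
  have h1 := Nat.card_congr (Equiv.ofBijective f hf)
  have h2 : Nat.card (Y × Kˣ) = Y.ncard * (Fintype.card K - 1) := by
    rw [Nat.card_prod, Nat.card_eq_fintype_card (α := Kˣ), Fintype.card_units]
    rfl
  have h3 : {v : V | ∃ h : v ≠ 0, Projectivization.mk K v h ∈ Y}.ncard
      = Nat.card {v : V // ∃ h : v ≠ 0, Projectivization.mk K v h ∈ Y} := rfl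
  rw [h3, ← h1, h2, mul_comm]

theorem dvd_cnt [Finite V] {F : V → A} (hF : IsWord K F) {P : V → Prop}
    (hP : ∀ (a : K) (v : V), a ≠ 0 → P v → P (a • v)) : (Fintype.card K - 1) ∣ cnt F P := by
  have h := ncard_proj (K := K) (V := V) {x | P x.rep ∧ F x.rep ≠ 0}
  have h2 : cnt F P = (Fintype.card K - 1) * {x : ℙ K V | P x.rep ∧ F x.rep ≠ 0}.ncard := by
    rw [← h]
    unfold cnt
    congr 1
    ext v
    simp only [Set.mem_ofPred_eq]
    constructor
    · rintro ⟨h1, h2⟩
      have hv := hF.ne_zero h2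
      refine ⟨hv, ?_⟩
      obtain ⟨a, ha⟩ := Projectivization.exists_smul_eq_mk_rep K v hv
      rw [← ha, Units.smul_def]
      exact ⟨hP _ _ a.ne_zero h1, by rwa [hF.smul _ _ a.ne_zero]⟩
    · rintro ⟨hv, h1, h2⟩
      obtain ⟨a, ha⟩ := Projectivization.exists_smul_eq_mk_rep K v hv
      have hv' : v = ((a⁻¹ : Kˣ) : K) • (Projectivization.mk K v hv).rep := by
        rw [← ha, ← Units.smul_def, inv_smul_smul]
      rw [hv']
      exact ⟨hP _ _ (a⁻¹).ne_zero h1, by rwa [hF.smul _ _ (a⁻¹).ne_zero]⟩
  exact Dvd.intro _ h2.symm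

/-- A line through the origin on which the word does not vanish. -/
theorem cnt_line [Finite V] {F : V → A} (hF : IsWord K F) {Q : V} (hQ : F Q ≠ 0) :
    cnt F (fun v => ∃ a : K, v = a • Q) = Fintype.card K - 1 := by
  classical
  have hQ0 := hF.ne_zero hQ
  unfold cnt
  have : {v | (∃ a : K, v = a • Q) ∧ F v ≠ 0} = Set.range (fun a : Kˣ => (a : K) • Q) := by
    ext v
    simp only [Set.mem_ofPred_eq, Set.mem_range]
    constructor
    · rintro ⟨⟨a, rfl⟩, h2⟩
      have ha : a ≠ 0 := by
        rintro rfl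
        apply h2
        simp [hF.zero]
      exact ⟨Units.mk0 a ha, rfl⟩
    · rintro ⟨a, rfl⟩
      exact ⟨⟨a, rfl⟩, by rwa [hF.smul _ _ a.ne_zero]⟩
  rw [this, Set.ncard_range_of_injective, Nat.card_eq_fintype_card, Fintype.card_units]
  intro a b hab
  have h : ((a : K) - b) • Q = 0 := by
    rw [sub_smul]; simpa [sub_eq_zero] using hab
  rcases smul_eq_zero.1 h with h4 | h4
  · exact Units.ext (sub_eq_zero.1 h4)
  · exact absurd h4 hQ0

end proj

end Pool.Agent.Helper58.Cyl
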