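import Mathlib
import Pool.Agent.Helper58.Cyl.Basic

/-!
Hyperplane counts.
-/

set_option linter.unusedSectionVars false
set_option linter.style.haveILetI false

namespace Pool.Agent.Helper58.Cyl

open Module

section hyper

variable {K : Type*} [Field K] [Fintype K]
variable {V : Type*} [AddCommGroup V] [Module K V]
variable {A : Type*} [AddCommGroup A]

/-- The number of support vectors in the kernel of `φ`. -/
noncomputable def hyp (F : V → A) (φ : Dual K V) : ℕ := cnt F (fun v => φ v = 0)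

/-- The size of the support. -/
noncomputable def tot (F : V → A) : ℕ := cnt F (fun _ => True)

theorem hyp_eq_zero [Finite V] {F : V → A} {φ : Dual K V} :
    hyp F φ = 0 ↔ ∀ v, φ v = 0 → F v = 0 := cnt_eq_zero_iff

theorem hyp_le_tot [Finite V] (F : V → A) (φ : Dual K V) : hyp F φ ≤ tot F :=
  cnt_mono (fun _ _ _ => trivial)

theorem hyp_zero (F : V → A) : hyp F (0 : Dual K V) = tot F := by
  unfold hyp tot
  apply cnt_congr
  simp

theorem tot_pos [Finite V] {F : V → A} {v : V} (hv : F v ≠ 0) : 0 < tot F :=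
  cnt_pos_iff.2 ⟨v, trivial, hv⟩

theorem hyp_pos [Finite V] {F : V → A} {φ : Dual K V} {v : V} (hφ : φ v = 0) (hv : F v ≠ 0) :
    0 < hyp F φ :=
  cnt_pos_iff.2 ⟨v, hφ, hv⟩

theorem hyp_smul (F : V → A) (φ : Dual K V) {a : K} (ha : a ≠ 0) : hyp F (a • φ) = hyp F φ := by
  unfold hyp
  apply cnt_congr
  intro v _
  simp [ha]

theorem tot_restrict (F : V → A) (φ : Dual K V) :
    tot (fun w : LinearMap.ker φ => F w) = hyp F φ := by
  have := cnt_subtype (F := F) (P := fun _ => True) (LinearMap.ker φ)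
  unfold tot hyp
  rw [this]
  apply cnt_congr
  simp

theorem pencil_tot [Finite V] (F : V → A) (φ₁ φ₂ : Dual K V) :
    hyp F φ₁ + ∑ c : K, hyp F (φ₂ + c • φ₁)
      = tot F + Fintype.card K * cnt F (fun v => φ₁ v = 0 ∧ φ₂ v = 0) := by
  have := pencil F (fun _ => True) φ₁ φ₂
  simp only [true_and] at this
  exact this

/-- If `ψ` is external then some member of the pencil is external. -/
theorem exists_second [Finite V] {F : V → A} {D : ℕ}
    (hLB : ∀ φ : Dual K V, φ ≠ 0 → hyp F φ = 0 ∨ D ≤ hyp F φ)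
    {ψ φ : Dual K V} (hψ : hyp F ψ = 0) (hne : ∀ c : K, φ + c • ψ ≠ 0)
    (h : tot F < Fintype.card K * D ∨ (tot F ≤ Fintype.card K * D ∧ hyp F φ ≠ D)) :
    ∃ c : K, hyp F (φ + c • ψ) = 0 := by
  classical
  by_contra hcon
  push Not at hcon
  have h1 : ∀ c : K, D ≤ hyp F (φ + c • ψ) := by
    intro c
    rcases hLB _ (hne c) with h2 | h2
    · exact absurd h2 (hcon c)
    · exact h2
  have h2 := pencil_tot F ψ φ
  have h3 : cnt F (fun v => ψ v = 0 ∧ φ v = 0) = 0 := by
    rw [cnt_eq_zero_iff]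
    intro v hv
    exact hyp_eq_zero.1 hψ v hv.1
  rw [hψ, h3, zero_add, mul_zero, add_zero] at h2
  have h4 : ∑ c : K, D ≤ ∑ c : K, hyp F (φ + c • ψ) := Finset.sum_le_sum (fun c _ => h1 c)
  rw [Finset.sum_const, Finset.card_univ, smul_eq_mul] at h4
  rcases h with h | ⟨h, h5⟩
  · omega
  · have h6 : D < hyp F (φ + (0 : K) • ψ) := by
      have := h1 0
      rw [zero_smul, add_zero] at this ⊢
      omega
    have h7 : ∑ c : K, D < ∑ c : K, hyp F (φ + c • ψ) :=
      Finset.sum_lt_sum (fun c _ => h1 c) ⟨0, Finset.mem_univ _, h6⟩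
    rw [Finset.sum_const, Finset.card_univ, smul_eq_mul] at h7
    omega

theorem exists_external [Finite V] [Nontrivial V] {F : V → A} (hF : IsWord K F) {D : ℕ}
    (hD : 0 < D) (hLB : ∀ φ : Dual K V, φ ≠ 0 → hyp F φ = 0 ∨ D ≤ hyp F φ)
    (hN : tot F ≤ Fintype.card K * D) : ∃ ψ : Dual K V, ψ ≠ 0 ∧ hyp F ψ = 0 := by
  classical
  by_contra hcon
  push Not at hcon
  haveI : Finite (Dual K V) := Module.finite_of_finite K
  haveI : Fintype (⊤ : Submodule K (Dual K V)) := Fintype.ofFinite _
  have h1 : ∀ φ : Dual K V, φ ≠ 0 → D ≤ hyp F φ := by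
    intro φ hφ
    rcases hLB φ hφ with h | h
    · exact absurd h (hcon φ hφ)
    · exact h
  have h2 := average F (⊤ : Submodule K (Dual K V))
  have h3 : cnt F (fun v => ∀ φ ∈ (⊤ : Submodule K (Dual K V)), φ v = 0) = 0 := by
    rw [cnt_eq_zero_iff]
    intro v hv
    have : v = 0 := by
      rw [← Module.forall_dual_apply_eq_zero_iff K v]
      intro f
      exact hv f Submodule.mem_top
    rw [this, hF.zero]
  rw [h3, mul_zero, add_zero] at h2
  set C := Nat.card (⊤ : Submodule K (Dual K V)) with hC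
  have hsum : tot F + (C - 1) * D
      ≤ ∑ φ : (⊤ : Submodule K (Dual K V)), hyp F (φ : Dual K V) := by
    rw [← Finset.add_sum_erase Finset.univ _ (Finset.mem_univ 0)]
    apply Nat.add_le_add
    · rw [Submodule.coe_zero, hyp_zero]
    · have h4 : ∑ φ ∈ Finset.univ.erase (0 : (⊤ : Submodule K (Dual K V))), D = (C - 1) * D := by
        rw [Finset.sum_const, Finset.card_erase_of_mem (Finset.mem_univ _), Finset.card_univ,
          smul_eq_mul, hC, Nat.card_eq_fintype_card]
      rw [← h4]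
      apply Finset.sum_le_sum
      intro φ hφ
      apply h1
      intro h0
      have : φ = 0 := Subtype.ext h0
      simp [this] at hφ
  have h5 : Fintype.card K * (tot F + (C - 1) * D) ≤ C * tot F := by
    have := Nat.mul_le_mul_left (Fintype.card K) hsum
    refine this.trans (le_of_eq ?_)
    exact h2
  have hq : 1 < Fintype.card K := Fintype.one_lt_card
  have hCq : Fintype.card K ≤ C := by
    obtain ⟨v, hv⟩ := exists_ne (0 : V)
    obtain ⟨φ, hφ, -⟩ := exists_functional (⊥ : Submodule K V) (v := v) (by simpa using hv)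
    have : Function.Injective (fun a : K => (⟨a • φ, Submodule.mem_top⟩ :
        (⊤ : Submodule K (Dual K V)))) := by
      intro a b hab
      have h6 : a • φ = b • φ := congrArg Subtype.val hab
      have h7 := congrArg (fun f => f v) h6
      simpa [hφ] using h7
    rw [hC, ← Nat.card_eq_fintype_card]
    exact Nat.card_le_card_of_injective _ this
  obtain ⟨k, hk⟩ := Nat.exists_eq_add_of_le hCq
  have e1 : C - 1 = (Fintype.card K - 1) + k := by omega
  rw [e1, hk] at h5
  have h6 : Fintype.card K * (((Fintype.card K - 1) + k) * D) ≤ k * tot F := by nlinarith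
  have h7 : k * tot F ≤ k * (Fintype.card K * D) := Nat.mul_le_mul_left _ hN
  have h8 : Fintype.card K * (((Fintype.card K - 1) + k) * D)
      = Fintype.card K * ((Fintype.card K - 1) * D) + k * (Fintype.card K * D) := by ring
  have h9 : 0 < Fintype.card K * ((Fintype.card K - 1) * D) := by
    have : 0 < Fintype.card K - 1 := by omega
    positivity
  omega

theorem exists_minimal [Finite V] {F : V → A} (hF : IsWord K F) {D : ℕ}
    (hdvd : (Fintype.card K - 1) ∣ D)
    (hLB : ∀ φ : Dual K V, φ ≠ 0 → hyp F φ = 0 ∨ D ≤ hyp F φ)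
    (hN : tot F ≤ Fintype.card K * D) {Q w : V} (hQ : F Q ≠ 0) (hw : w ∉ Submodule.span K {Q}) :
    ∃ χ : Dual K V, χ ≠ 0 ∧ χ Q = 0 ∧ hyp F χ = D := by
  classical
  by_contra hcon
  push Not at hcon
  haveI : Finite (Dual K V) := Module.finite_of_finite K
  let S : Submodule K (Dual K V) := LinearMap.ker (Dual.eval K V Q)
  have hS : ∀ φ : Dual K V, φ ∈ S ↔ φ Q = 0 := fun φ => Iff.rfl
  haveI : Fintype S := Fintype.ofFinite _
  have hq : 1 < Fintype.card K := Fintype.one_lt_card
  have h1 : ∀ φ : Dual K V, φ ≠ 0 → φ Q = 0 → D + (Fintype.card K - 1) ≤ hyp F φ := by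
    intro φ hφ hφQ
    have h2 : D ≤ hyp F φ := by
      rcases hLB φ hφ with h | h
      · have := hyp_pos hφQ hQ
        omega
      · exact h
    have h3 : hyp F φ ≠ D := hcon φ hφ hφQ
    have h4 : (Fintype.card K - 1) ∣ hyp F φ := by
      apply dvd_cnt hF
      intro a v _ hv
      simp [hv]
    have h5 : (Fintype.card K - 1) ∣ hyp F φ - D := Nat.dvd_sub h4 hdvd
    have := Nat.le_of_dvd (by omega) h5
    omega
  have h2 := average F S
  have h3 : cnt F (fun v => ∀ φ ∈ S, φ v = 0) = Fintype.card K - 1 := by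
    rw [← cnt_line hF hQ]
    apply cnt_congr
    intro v _
    constructor
    · intro h
      have : v ∈ Submodule.span K {Q} := by
        by_contra hv
        obtain ⟨φ, hφ1, hφ2⟩ := exists_functional _ hv
        have := h φ (hφ2 Q (Submodule.mem_span_singleton_self Q))
        rw [hφ1] at this
        exact one_ne_zero this
      obtain ⟨a, ha⟩ := Submodule.mem_span_singleton.1 this
      exact ⟨a, ha.symm⟩
    · rintro ⟨a, rfl⟩ φ hφ
      have : φ Q = 0 := hφ
      simp [this]
  rw [h3] at h2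
  obtain ⟨φ₀, hφ₀1, hφ₀2⟩ := exists_functional _ hw
  have hNlow : D + (Fintype.card K - 1) ≤ tot F := by
    refine (h1 φ₀ ?_ (hφ₀2 Q (Submodule.mem_span_singleton_self Q))).trans (hyp_le_tot _ _)
    intro h0
    rw [h0] at hφ₀1
    simp at hφ₀1
  have hsum : Nat.card S * (D + (Fintype.card K - 1)) ≤ ∑ φ : S, hyp F (φ : Dual K V) := by
    have h4 : ∑ φ : S, (D + (Fintype.card K - 1)) = Nat.card S * (D + (Fintype.card K - 1)) := by
      rw [Finset.sum_const, Finset.card_univ, smul_eq_mul, Nat.card_eq_fintype_card]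
    rw [← h4]
    apply Finset.sum_le_sum
    intro φ _
    by_cases h0 : (φ : Dual K V) = 0
    · rw [h0, hyp_zero]; exact hNlow
    · exact h1 φ h0 φ.2
  have h5 : Fintype.card K * (Nat.card S * (D + (Fintype.card K - 1)))
      ≤ Nat.card S * (tot F + (Fintype.card K - 1) * (Fintype.card K - 1)) := by
    refine (Nat.mul_le_mul_left (Fintype.card K) hsum).trans (le_of_eq ?_)
    exact h2
  have hCpos : 0 < Nat.card S := Nat.card_pos
  have h6 : Fintype.card K * (D + (Fintype.card K - 1))
      ≤ tot F + (Fintype.card K - 1) * (Fintype.card K - 1) := by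
    have : Nat.card S * (Fintype.card K * (D + (Fintype.card K - 1)))
      ≤ Nat.card S * (tot F + (Fintype.card K - 1) * (Fintype.card K - 1)) := by
      refine le_trans (le_of_eq ?_) h5
      ring
    exact Nat.le_of_mul_le_mul_left this hCpos
  obtain ⟨k, hk⟩ : ∃ k, Fintype.card K = k + 1 := ⟨Fintype.card K - 1, by omega⟩
  rw [hk] at h6 hN hq
  simp only [Nat.add_sub_cancel] at h6
  nlinarith

/-- Two different support points in a subspace. -/
theorem two_lines [Finite V] {F : V → A} (hF : IsWord K F) {P : V → Prop}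
    (hP : ∀ (a : K) (v : V), P v → P (a • v)) {R R' : V} (hR : F R ≠ 0) (hR' : F R' ≠ 0)
    (hPR : P R) (hPR' : P R') (hne : ∀ a : K, R' ≠ a • R) :
    2 * (Fintype.card K - 1) ≤ cnt F P := by
  classical
  have h1 := cnt_line hF hR
  have h2 := cnt_line hF hR'
  unfold cnt at h1 h2 ⊢
  rw [two_mul, ← h1]
  nth_rewrite 2 [h1]
  rw [← h2, ← Set.ncard_union_eq _ (Set.toFinite _) (Set.toFinite _)]
  · apply Set.ncard_le_ncard _ (Set.toFinite _)
    rintro v (⟨⟨a, rfl⟩, hv⟩ | ⟨⟨a, rfl⟩, hv⟩)
    · exact ⟨hP a R hPR, hv⟩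
    · exact ⟨hP a R' hPR', hv⟩
  · rw [Set.disjoint_left]
    rintro v ⟨⟨a, rfl⟩, hv⟩ ⟨⟨b, hb⟩, -⟩
    have hb0 : b ≠ 0 := by
      rintro rfl
      rw [zero_smul] at hb
      exact hF.ne_zero hv hb
    apply hne (b⁻¹ * a)
    rw [mul_smul, hb, inv_smul_smul₀ hb0]

end hyper

end Pool.Agent.Helper58.Cyl
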