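import Mathlib
import Pool.Agent.Helper58.Cyl.Basic

/-!
The moment lemma.
-/

set_option linter.unusedSectionVars false
set_option linter.style.haveILetI false

namespace Pool.Agent.Helper58.Cyl

open Module Polynomial

section sums

variable {K : Type*} [Field K] [Fintype K]

theorem sum_pow_card_sub_one : ∑ x : K, x ^ (Fintype.card K - 1) = -1 := by
  classical
  have h1 : ∀ x : K, x ^ (Fintype.card K - 1) = if x = 0 then (0 : K) else 1 := by
    intro x
    by_cases hx : x = 0
    · subst hx
      have : 1 < Fintype.card K := Fintype.one_lt_card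
      rw [if_pos rfl, zero_pow (by omega)]
    · rw [if_neg hx, FiniteField.pow_card_sub_one_eq_one x hx]
  simp only [h1]
  have h2 : ∀ x : K, (if x = 0 then (0 : K) else 1) = 1 - (if x = 0 then 1 else 0) := by
    intro x; by_cases hx : x = 0 <;> simp [hx]
  simp only [h2, Finset.sum_sub_distrib]
  simp [FiniteField.cast_card_eq_zero]

theorem sum_aux (hq : 2 < Fintype.card K) (z μ : K) (i : ℕ) (h1 : 1 ≤ i)
    (h2 : i ≤ Fintype.card K - 1) :
    ∑ β : K, (z - β * μ) ^ i * β ^ (Fintype.card K - i) = -(i * (z * (-μ) ^ (i - 1))) := by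
  have h3 : ∀ β : K, (z - β * μ) ^ i * β ^ (Fintype.card K - i)
      = ∑ k ∈ Finset.range (i + 1), (-μ) ^ k * z ^ (i - k) * (i.choose k : K) *
        β ^ (k + (Fintype.card K - i)) := by
    intro β
    have : z - β * μ = -μ * β + z := by ring
    rw [this, add_pow, Finset.sum_mul]
    refine Finset.sum_congr rfl fun k _ => ?_
    rw [mul_pow, pow_add]
    ring
  simp only [h3]
  rw [Finset.sum_comm]
  simp only [← Finset.mul_sum]
  rw [Finset.sum_eq_single (i - 1)]
  · have e : i - 1 + (Fintype.card K - i) = Fintype.card K - 1 := by omega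
    rw [e, sum_pow_card_sub_one]
    have e2 : i - (i - 1) = 1 := by omega
    have e3 : i.choose (i - 1) = i := by
      rw [Nat.choose_symm h1, Nat.choose_one_right]
    rw [e2, e3]
    ring
  · intro k hk hki
    rw [Finset.mem_range] at hk
    by_cases hk' : k = i
    · subst hk'
      have e : k + (Fintype.card K - k) = Fintype.card K := by omega
      rw [e]
      simp only [FiniteField.pow_card]
      have := FiniteField.sum_pow_lt_card_sub_one K 1 (by omega)
      simp only [pow_one] at this
      rw [this, mul_zero]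
    · rw [FiniteField.sum_pow_lt_card_sub_one K _ (by omega), mul_zero]
  · intro h
    exfalso
    apply h
    rw [Finset.mem_range]
    omega

end sums

section moment

variable {K : Type*} [Field K] [Fintype K]
variable {V : Type*} [AddCommGroup V] [Module K V]

theorem exists_separating [Finite V] {p : ℕ} (hp : 2 ≤ p) (hq : Fintype.card K = p ^ 2)
    (Ψ : Finset (Dual K V)) (hΨ : Ψ.card = p + 1) :
    ∃ v : V, ∀ ψ ∈ Ψ, ∀ χ ∈ Ψ, ψ ≠ χ → ψ v ≠ χ v := by
  classical
  obtain ⟨e⟩ : Nonempty (Ψ ≃ Fin (p + 1)) := ⟨Ψ.equivFinOfCardEq hΨ⟩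
  let f : Fin (p + 1) → Dual K V := fun i => (e.symm i : Dual K V)
  have hf : Function.Injective f := fun i j h => e.symm.injective (Subtype.ext h)
  let T : Finset (Dual K V) := (Finset.univ : Finset (Fin (p + 1))).biUnion
    (fun j => (Finset.Iio j).image (fun i => f i - f j))
  have hT : T.card < Fintype.card K := by
    have h1 : T.card ≤ ∑ j : Fin (p + 1), (j : ℕ) := by
      refine Finset.card_biUnion_le.trans ?_
      refine Finset.sum_le_sum fun j _ => ?_
      refine Finset.card_image_le.trans ?_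
      rw [Fin.card_Iio]
    have h2 : (∑ j : Fin (p + 1), (j : ℕ)) * 2 = (p + 1) * p := by
      rw [Fin.sum_univ_eq_sum_range (fun i => i) (p + 1), Finset.sum_range_id_mul_two]
      rfl
    rw [hq]
    nlinarith
  obtain ⟨v, hv⟩ := avoid T hT (by
    intro φ hφ
    simp only [T, Finset.mem_biUnion, Finset.mem_univ, true_and, Finset.mem_image,
      Finset.mem_Iio] at hφ
    obtain ⟨j, i, hij, rfl⟩ := hφ
    rw [sub_ne_zero]
    exact fun h => (ne_of_lt hij) (hf h))
  refine ⟨v, fun ψ hψ χ hχ hne heq => ?_⟩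
  have key : ∀ i j : Fin (p + 1), i < j → f i v ≠ f j v := by
    intro i j hij h
    apply hv (f i - f j)
    · simp only [T, Finset.mem_biUnion, Finset.mem_univ, true_and, Finset.mem_image,
        Finset.mem_Iio]
      exact ⟨j, i, hij, rfl⟩
    · simp [h]
  have e1 : f (e ⟨ψ, hψ⟩) = ψ := by simp [f]
  have e2 : f (e ⟨χ, hχ⟩) = χ := by simp [f]
  rcases lt_trichotomy (e ⟨ψ, hψ⟩) (e ⟨χ, hχ⟩) with h | h | h
  · apply key _ _ h
    rw [e1, e2, heq]
  · apply hne
    rw [← e1, ← e2, h]
  · apply key _ _ h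
    rw [e1, e2, heq]

theorem moment_lemma [Finite V] {p : ℕ} [Fact p.Prime] [CharP K p]
    (hq : Fintype.card K = p ^ 2) {G : V → K} (hG : IsWord K G) {P Q : V}
    (hM : ∑ z : K, z * G (Q + z • P) ≠ 0) (Ψ : Finset (Dual K V))
    (h1 : ∀ ψ ∈ Ψ, ψ P = 0) (h2 : ∀ ψ ∈ Ψ, ψ Q = 1) (h3 : ∀ ψ ∈ Ψ, ∀ v, ψ v = 0 → G v = 0) :
    Ψ.card ≤ p := by
  classical
  have hp : p.Prime := Fact.out
  have hp2 : 2 ≤ p := hp.two_le
  have hq2 : 2 < Fintype.card K := by rw [hq]; nlinarith
  by_contra hcon
  push Not at hcon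
  obtain ⟨Φ, hΦ, hcard⟩ := Finset.exists_subset_card_eq (s := Ψ) (n := p + 1) (by omega)
  have h1 : ∀ ψ ∈ Φ, ψ P = 0 := fun ψ h => h1 ψ (hΦ h)
  have h2 : ∀ ψ ∈ Φ, ψ Q = 1 := fun ψ h => h2 ψ (hΦ h)
  have h3 : ∀ ψ ∈ Φ, ∀ v, ψ v = 0 → G v = 0 := fun ψ h => h3 ψ (hΦ h)
  obtain ⟨e₂, he₂⟩ := exists_separating hp2 hq Φ hcard
  obtain ⟨ψ₀, hψ₀⟩ : Φ.Nonempty := by
    rw [← Finset.card_pos]; omega
  set e : V := e₂ - ψ₀ e₂ • Q with he
  have hev : ∀ ψ ∈ Φ, ψ e = ψ e₂ - ψ₀ e₂ := by
    intro ψ hψ
    simp [he, h2 ψ hψ]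
  have he0 : ψ₀ e = 0 := by rw [hev ψ₀ hψ₀, sub_self]
  have hene : ∀ ψ ∈ Φ, ψ ≠ ψ₀ → ψ e ≠ 0 := by
    intro ψ hψ hne
    rw [hev ψ hψ, sub_ne_zero]
    exact he₂ ψ hψ ψ₀ hψ₀ hne
  let g : K → K → K := fun μ z => G (Q + μ • e + z • P)
  let M : K → K := fun μ => ∑ z : K, z * g μ z
  have fact2 : ∀ α β : K, ∑ μ : K, g μ (α + β * μ) = 0 := by
    intro α β
    have := hG.line (e + β • P) (Q + α • P)
    rw [h3 ψ₀ hψ₀ (e + β • P) (by simp [he0, h1 ψ₀ hψ₀]), zero_add] at this
    rw [← this]
    refine Finset.sum_congr rfl fun μ _ => ?_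
    change G _ = G _
    congr 1
    module
  have fact3 : ∀ i : ℕ, 1 ≤ i → i ≤ Fintype.card K - 1 →
      (i : K) * ∑ μ : K, (-μ) ^ (i - 1) * M μ = 0 := by
    intro i hi1 hi2
    have hS : ∑ β : K, ∑ α : K, α ^ i * β ^ (Fintype.card K - i) * ∑ μ : K, g μ (α + β * μ)
        = 0 := by simp [fact2]
    have hS2 : ∑ β : K, ∑ α : K, α ^ i * β ^ (Fintype.card K - i) * ∑ μ : K, g μ (α + β * μ)
        = ∑ μ : K, ∑ z : K, g μ z *
            ∑ β : K, (z - β * μ) ^ i * β ^ (Fintype.card K - i) := by
      calc ∑ β : K, ∑ α : K, α ^ i * β ^ (Fintype.card K - i) * ∑ μ : K, g μ (α + β * μ)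
          = ∑ β : K, ∑ μ : K, ∑ α : K, α ^ i * β ^ (Fintype.card K - i) * g μ (α + β * μ) := by
            refine Finset.sum_congr rfl fun β _ => ?_
            rw [Finset.sum_comm]
            refine Finset.sum_congr rfl fun μ _ => ?_
            rw [Finset.mul_sum]
        _ = ∑ β : K, ∑ μ : K, ∑ z : K,
              (z - β * μ) ^ i * β ^ (Fintype.card K - i) * g μ z := by
            refine Finset.sum_congr rfl fun β _ => Finset.sum_congr rfl fun μ _ => ?_
            refine Fintype.sum_equiv (Equiv.addRight (β * μ)) _ _ fun α => ?_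
            simp
        _ = ∑ μ : K, ∑ β : K, ∑ z : K,
              (z - β * μ) ^ i * β ^ (Fintype.card K - i) * g μ z := Finset.sum_comm
        _ = ∑ μ : K, ∑ z : K, ∑ β : K,
              (z - β * μ) ^ i * β ^ (Fintype.card K - i) * g μ z := by
            refine Finset.sum_congr rfl fun μ _ => Finset.sum_comm
        _ = _ := by
            refine Finset.sum_congr rfl fun μ _ => Finset.sum_congr rfl fun z _ => ?_
            rw [Finset.mul_sum]
            refine Finset.sum_congr rfl fun β _ => ?_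
            ring
    rw [hS] at hS2
    simp only [sum_aux hq2 _ _ i hi1 hi2] at hS2
    have hS3 : ∑ μ : K, ∑ z : K, g μ z * -(i * (z * (-μ) ^ (i - 1)))
        = - ((i : K) * ∑ μ : K, (-μ) ^ (i - 1) * M μ) := by
      rw [Finset.mul_sum, ← Finset.sum_neg_distrib]
      refine Finset.sum_congr rfl fun μ _ => ?_
      simp only [M]
      rw [Finset.mul_sum, Finset.mul_sum, ← Finset.sum_neg_distrib]
      refine Finset.sum_congr rfl fun z _ => ?_
      ring
    rw [hS3] at hS2
    exact neg_eq_zero.1 hS2.symm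
  have fact4 : ∀ E : ℕ, E < p ^ 2 - p → ∑ μ : K, ((-μ) ^ p) ^ E * M μ = 0 := by
    intro E hE
    have hdiv : p * (E / p) + E % p = E := Nat.div_add_mod E p
    have ha : E % p < p := Nat.mod_lt _ (by omega)
    have hpp : p ^ 2 - p = p * (p - 1) := by
      rw [Nat.mul_sub, mul_one, pow_two]
    have hb : E / p < p - 1 := by
      rw [hpp] at hE
      exact Nat.div_lt_of_lt_mul hE
    generalize E % p = a at hdiv ha
    generalize E / p = b at hdiv hb
    have hi2 : b + 1 + p * a ≤ Fintype.card K - 1 := by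
      rw [hq]
      have : p * a ≤ p * (p - 1) := Nat.mul_le_mul_left _ (by omega)
      rw [← hpp] at this
      have h4 : p ≤ p ^ 2 := by nlinarith
      omega
    have := fact3 (b + 1 + p * a) (by omega) hi2
    have hne : ((b + 1 + p * a : ℕ) : K) ≠ 0 := by
      intro h
      rw [CharP.cast_eq_zero_iff K p] at h
      have h5 : p ∣ b + 1 := (Nat.dvd_add_left (Dvd.intro a rfl)).1 h
      have := Nat.le_of_dvd (by omega) h5
      omega
    rcases mul_eq_zero.1 this with h | h
    · exact absurd h hne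
    rw [← h]
    refine Finset.sum_congr rfl fun μ _ => ?_
    congr 1
    have e1 : b + 1 + p * a - 1 = b + p * a := by omega
    rw [e1, ← hdiv]
    have e2 : ((-μ) ^ p) ^ (p * b + a) = ((-μ) ^ (p ^ 2)) ^ b * (-μ) ^ (p * a) := by
      rw [← pow_mul, ← pow_mul, ← pow_add]
      congr 1
      ring
    rw [e2, ← hq, FiniteField.pow_card, pow_add]
  have fact5 : ∀ R : K[X], R.natDegree < p ^ 2 - p → ∑ μ : K, R.eval ((-μ) ^ p) * M μ = 0 := by
    intro R hR
    simp only [eval_eq_sum_range, Finset.sum_mul]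
    rw [Finset.sum_comm]
    apply Finset.sum_eq_zero
    intro E hE
    rw [Finset.mem_range] at hE
    have := fact4 E (by omega)
    simp only [mul_assoc]
    rw [← Finset.mul_sum, this, mul_zero]
  -- the support of `M`
  have hM0 : M 0 ≠ 0 := by
    simpa [M, g] using hM
  let Z : Finset K := Finset.univ.filter (fun μ => M μ ≠ 0 ∧ μ ≠ 0)
  have hZ : Z.card < p ^ 2 - p := by
    let Y : Finset K := (Φ.erase ψ₀).image (fun ψ => -(ψ e)⁻¹)
    have hY : Y.card = p := by
      rw [Finset.card_image_of_injOn, Finset.card_erase_of_mem hψ₀, hcard]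
      · omega
      · intro ψ hψ χ hχ h
        simp only [Finset.coe_erase, Set.mem_sdiff, Finset.mem_coe, Set.mem_singleton_iff] at hψ hχ
        have h5 : ψ e = χ e := by simpa using h
        rw [hev ψ hψ.1, hev χ hχ.1] at h5
        by_contra hne
        apply he₂ ψ hψ.1 χ hχ.1 hne
        linear_combination h5
    have hsub : Z ⊆ (Finset.univ \ Y).erase 0 := by
      intro μ hμ
      simp only [Z, Finset.mem_filter, Finset.mem_univ, true_and] at hμ
      simp only [Finset.mem_erase, Finset.mem_sdiff, Finset.mem_univ, true_and]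
      refine ⟨hμ.2, fun hY' => hμ.1 ?_⟩
      simp only [Y, Finset.mem_image, Finset.mem_erase] at hY'
      obtain ⟨ψ, ⟨hψne, hψ⟩, rfl⟩ := hY'
      simp only [M, g]
      apply Finset.sum_eq_zero
      intro z _
      rw [h3 ψ hψ, mul_zero]
      simp only [map_add, map_smul, h2 ψ hψ, h1 ψ hψ, smul_eq_mul]
      have := hene ψ hψ hψne
      field_simp
      ring
    have h0Y : (0 : K) ∈ (Finset.univ \ Y) := by
      simp only [Finset.mem_sdiff, Finset.mem_univ, true_and, Y, Finset.mem_image,
        Finset.mem_erase]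
      rintro ⟨ψ, ⟨hψne, hψ⟩, h⟩
      have h6 := hene ψ hψ hψne
      rw [neg_eq_zero, inv_eq_zero] at h
      exact h6 h
    have := Finset.card_le_card hsub
    rw [Finset.card_erase_of_mem h0Y, Finset.card_sdiff_of_subset (Finset.subset_univ Y), hY,
      Finset.card_univ, hq] at this
    have h4 : p < p ^ 2 := by nlinarith
    omega
  let R : K[X] := ∏ μ ∈ Z, (X - C ((-μ) ^ p))
  have hR : R.natDegree = Z.card := natDegree_finsetProd_X_sub_C_eq_card _ _
  have h5 := fact5 R (by omega)
  rw [Finset.sum_eq_single 0] at h5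
  · have hp0 : p ≠ 0 := by omega
    rw [neg_zero, zero_pow hp0] at h5
    rcases mul_eq_zero.1 h5 with h | h
    · simp only [R, eval_prod, eval_sub, eval_X, eval_C, zero_sub] at h
      rw [Finset.prod_eq_zero_iff] at h
      obtain ⟨μ, hμ, h⟩ := h
      simp only [Z, Finset.mem_filter, Finset.mem_univ, true_and] at hμ
      have : (-μ) ^ p ≠ 0 := pow_ne_zero _ (neg_ne_zero.2 hμ.2)
      exact this (neg_eq_zero.1 h)
    · exact hM0 h
  · intro μ _ hμ
    by_cases hMμ : M μ = 0
    · rw [hMμ, mul_zero]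
    · have : μ ∈ Z := by simp [Z, hMμ, hμ]
      have : R.eval ((-μ) ^ p) = 0 := by
        simp only [R, eval_prod, eval_sub, eval_X, eval_C]
        apply Finset.prod_eq_zero this
        simp
      rw [this, zero_mul]
  · intro h
    exact absurd (Finset.mem_univ _) h

theorem find_P [Finite V] {G : V → K} (hG : IsWord K G) (ψ : Dual K V)
    (hψ : ∀ v, ψ v = 0 → G v = 0) {Q : V} (hQ : ψ Q = 1) (hGQ : G Q ≠ 0)
    (hlt : cnt G (fun _ => True)
      < (Fintype.card K - 1) + 2 * (Nat.card (LinearMap.ker ψ) - 1)) :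
    ∃ P : V, P ≠ 0 ∧ ψ P = 0 ∧ ∑ z : K, z * G (Q + z • P) ≠ 0 := by
  classical
  haveI := Fintype.ofFinite V
  by_contra hcon
  push Not at hcon
  -- two nonzero parameters on every line
  have two : ∀ P : V, P ≠ 0 → ψ P = 0 →
      2 ≤ (Finset.univ.filter (fun z : K => z ≠ 0 ∧ G (Q + z • P) ≠ 0)).card := by
    intro P hP0 hP
    have h1 := hG.line P Q
    rw [hψ P hP, zero_add] at h1
    have h2 := hcon P hP0 hP
    have h3 : ∑ z ∈ Finset.univ.filter (fun z : K => z ≠ 0 ∧ G (Q + z • P) ≠ 0), G (Q + z • P)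
        = - G Q := by
      have h4 : ∑ z ∈ Finset.univ.erase (0 : K), G (Q + z • P) = - G Q := by
        have := Finset.add_sum_erase Finset.univ (fun z : K => G (Q + z • P)) (Finset.mem_univ 0)
        rw [h1] at this
        simp only [zero_smul, add_zero] at this
        linear_combination this
      rw [← h4]
      apply Finset.sum_subset
      · intro z hz
        simp only [Finset.mem_filter, Finset.mem_univ, true_and] at hz
        simp [hz.1]
      · intro z hz hz2
        simp only [Finset.mem_filter, Finset.mem_univ, true_and, not_and, not_not] at hz2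
        apply hz2
        simpa using hz
    have h5 : ∑ z ∈ Finset.univ.filter (fun z : K => z ≠ 0 ∧ G (Q + z • P) ≠ 0),
        z * G (Q + z • P) = 0 := by
      refine Eq.trans ?_ h2
      apply Finset.sum_subset (Finset.subset_univ _)
      intro z _ hz2
      simp only [Finset.mem_filter, Finset.mem_univ, true_and, not_and, not_not] at hz2
      by_cases hz : z = 0
      · simp [hz]
      · rw [hz2 hz, mul_zero]
    by_contra hlt2
    have hle : (Finset.univ.filter (fun z : K => z ≠ 0 ∧ G (Q + z • P) ≠ 0)).card ≤ 1 := by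
      omega
    rw [Finset.card_le_one_iff_subset_singleton] at hle
    obtain ⟨z₀, hz₀⟩ := hle
    rcases Finset.subset_singleton_iff.1 hz₀ with h | h
    · rw [h, Finset.sum_empty] at h3
      exact hGQ (neg_eq_zero.1 h3.symm)
    · rw [h, Finset.sum_singleton] at h5
      have hmem : z₀ ∈ Finset.univ.filter (fun z : K => z ≠ 0 ∧ G (Q + z • P) ≠ 0) := by
        rw [h]; simp
      simp only [Finset.mem_filter, Finset.mem_univ, true_and] at hmem
      exact (mul_ne_zero hmem.1 hmem.2) h5
  let L := LinearMap.ker ψ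
  let B : Finset L := Finset.univ.filter (fun R => R ≠ 0 ∧ G (Q + R) ≠ 0)
  have hB : 2 * (Nat.card L - 1) ≤ (Fintype.card K - 1) * B.card := by
    have h1 : ∑ P ∈ Finset.univ.erase (0 : L),
        (Finset.univ.filter (fun z : K => z ≠ 0 ∧ G (Q + z • (P : V)) ≠ 0)).card
        = (Fintype.card K - 1) * B.card := by
      simp only [Finset.card_filter]
      rw [Finset.sum_comm]
      have h2 : ∀ z : K, (∑ P ∈ Finset.univ.erase (0 : L),
          if z ≠ 0 ∧ G (Q + z • (P : V)) ≠ 0 then 1 else 0) = if z = 0 then 0 else B.card := by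
        intro z
        by_cases hz : z = 0
        · simp [hz]
        · rw [if_neg hz]
          simp only [B, Finset.card_filter]
          have : (∑ P ∈ Finset.univ.erase (0 : L),
            if z ≠ 0 ∧ G (Q + z • (P : V)) ≠ 0 then 1 else 0)
            = ∑ P : L, if P ≠ 0 ∧ G (Q + z • (P : V)) ≠ 0 then 1 else 0 := by
            rw [← Finset.add_sum_erase Finset.univ _ (Finset.mem_univ (0 : L))]
            simp only [ne_eq, not_true_eq_false, false_and, if_false, zero_add]
            refine Finset.sum_congr rfl fun P hP => ?_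
            have hP0 : P ≠ 0 := by simpa using hP
            simp [hz, hP0]
          rw [this]
          refine Fintype.sum_equiv (LinearEquiv.smulOfNeZero K L z hz).toEquiv _ _ fun P => ?_
          simp [hz]
      simp only [h2]
      rw [← Finset.add_sum_erase Finset.univ _ (Finset.mem_univ (0 : K))]
      rw [if_pos rfl, zero_add]
      rw [Finset.sum_congr rfl (g := fun _ => B.card) (fun z hz => by
        rw [if_neg]; simpa using hz)]
      rw [Finset.sum_const, Finset.card_erase_of_mem (Finset.mem_univ _), Finset.card_univ,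
        smul_eq_mul]
    rw [← h1]
    have h2 : ∑ P ∈ Finset.univ.erase (0 : L), 2 = 2 * (Nat.card L - 1) := by
      rw [Finset.sum_const, Finset.card_erase_of_mem (Finset.mem_univ _), Finset.card_univ,
        smul_eq_mul, Nat.card_eq_fintype_card, mul_comm]
    rw [← h2]
    apply Finset.sum_le_sum
    intro P hP
    have hP0 : P ≠ 0 := by simpa using hP
    exact two P (fun h => hP0 (Subtype.ext h)) P.2
  -- count the support of `G`
  have hC : (Fintype.card K - 1) * (1 + B.card) ≤ cnt G (fun _ => True) := by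
    let B' : Finset L := insert 0 B
    have hB' : B'.card = 1 + B.card := by
      rw [Finset.card_insert_of_notMem, add_comm]
      simp [B]
    let f : Kˣ × L → V := fun x => (x.1 : K) • (Q + (x.2 : V))
    have hf : Function.Injective f := by
      rintro ⟨a, R⟩ ⟨b, S⟩ h
      have hR : ψ (R : V) = 0 := R.2
      have hS : ψ (S : V) = 0 := S.2
      have h1 : (a : K) = b := by
        have := congrArg ψ h
        simpa [f, hQ, hR, hS] using this
      have h2 : a = b := Units.ext h1
      subst h2
      have h3 : Q + (R : V) = Q + S := by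
        have : (a : K) • (Q + (R : V)) = (a : K) • (Q + (S : V)) := h
        exact smul_right_injective V a.ne_zero this
      have h4 : R = S := Subtype.ext (add_left_cancel h3)
      rw [h4]
    have h1 : ((Finset.univ ×ˢ B').image f : Set V) ⊆ {v | True ∧ G v ≠ 0} := by
      intro v hv
      simp only [Finset.coe_image, Set.mem_image, Finset.mem_coe, Finset.mem_product,
        Finset.mem_univ, true_and, Prod.exists] at hv
      obtain ⟨a, R, hR, rfl⟩ := hv
      refine ⟨trivial, ?_⟩
      change G ((a : K) • (Q + (R : V))) ≠ 0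
      rw [hG.smul _ _ a.ne_zero]
      simp only [B', Finset.mem_insert, B, Finset.mem_filter, Finset.mem_univ, true_and] at hR
      rcases hR with rfl | hR
      · simpa using hGQ
      · exact hR.2
    have h2 := Set.ncard_le_ncard h1 (Set.toFinite _)
    rw [Set.ncard_coe_finset, Finset.card_image_of_injective _ hf, Finset.card_product,
      Finset.card_univ, Fintype.card_units, hB'] at h2
    exact h2
  have h6 : (Fintype.card K - 1) * (1 + B.card)
      = (Fintype.card K - 1) + (Fintype.card K - 1) * B.card := by ring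
  have hC' : (Fintype.card K - 1) + (Fintype.card K - 1) * B.card ≤ cnt G (fun _ => True) := by
    rw [← h6]; exact hC
  have hB' : 2 * (Nat.card (LinearMap.ker ψ) - 1) ≤ (Fintype.card K - 1) * B.card := hB
  omega

end moment

end Pool.Agent.Helper58.Cyl
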