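import Mathlib
import Pool.Agent.Helper58.Cyl.Basic

/-!
The planar minimum weight and an explicit planar word of small weight.
-/

set_option linter.unusedSectionVars false
set_option linter.style.haveILetI false

namespace Pool.Agent.Helper58.Cyl

open Module

universe u

/-- The minimum size of the support of a nonzero word on the three-dimensional space. -/
noncomputable def D2 (K : Type u) [Field K] [Fintype K] (p : ℕ) : ℕ :=
  sInf {k | ∃ F : (Fin 3 → K) → ZMod p, IsWord K F ∧ (∃ v, F v ≠ 0) ∧ cnt F (fun _ => True) = k}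

section transport

variable {K : Type u} [Field K] [Fintype K]
variable {V : Type*} [AddCommGroup V] [Module K V]

theorem D2_le [Finite V] {p : ℕ} (h3 : finrank K V = 3) {F : V → ZMod p} (hF : IsWord K F)
    (hne : ∃ v, F v ≠ 0) : D2 K p ≤ cnt F (fun _ => True) := by
  haveI : Module.Finite K V := Module.finite_of_finrank_pos (by omega)
  let e : (Fin 3 → K) ≃ₗ[K] V := LinearEquiv.ofFinrankEq _ _ (by simp [h3])
  apply Nat.sInf_le
  refine ⟨fun w => F (e w), hF.comp e.toLinearMap, ?_, ?_⟩
  · obtain ⟨v, hv⟩ := hne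
    exact ⟨e.symm v, by simpa using hv⟩
  · have := cnt_comp (F := F) (P := fun _ => True) (fun w => e w) e.injective
      (fun v _ _ => e.surjective v)
    exact this

end transport

section T

variable {K : Type u} [Field K] [Fintype K]
variable {V : Type*} [AddCommGroup V] [Module K V]
variable {Y : Type*} [AddCommGroup Y]

/-- The number of multiples of `v` that are killed by `g`. -/
noncomputable def T (K : Type u) [Field K] {V : Type*} [AddCommGroup V] [Module K V]
    {Y : Type*} [AddCommGroup Y] (p : ℕ) (g : V →+ Y) (v : V) : ZMod p :=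
  (Nat.card {l : K // g (l • v) = 0} : ZMod p)

theorem isWord_T {p : ℕ} [Fact p.Prime] (hq : Fintype.card K = p ^ 2) [Finite Y]
    (hY : Nat.card Y ≤ p ^ 3) (g : V →+ Y) : IsWord K (T K p g) where
  zero := by
    have : Nat.card {l : K // g (l • (0 : V)) = 0} = p ^ 2 := by
      rw [← hq, ← Nat.card_eq_fintype_card]
      exact Nat.card_congr (Equiv.subtypeUnivEquiv (fun _ => by simp))
    unfold T
    rw [this]
    simp
  smul a v ha := by
    simp only [T]
    congr 1
    refine Nat.card_congr ((Equiv.mulRight₀ a ha).subtypeEquiv fun l => ?_)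
    simp [mul_smul]
  line u v := by
    classical
    have hcard : ∀ w : V, Nat.card {l : K // g (l • w) = 0}
        = ∑ l : K, if g (l • w) = 0 then 1 else 0 := by
      intro w
      rw [Nat.card_eq_fintype_card, Fintype.card_subtype, Finset.card_filter]
    let N : ℕ := ∑ l : K, ∑ m : K, if g (l • v + m • u) = 0 then 1 else 0
    have h1 : Nat.card {l : K // g (l • u) = 0}
        + ∑ a : K, Nat.card {l : K // g (l • (v + a • u)) = 0} = N + Fintype.card K := by
      simp only [hcard]
      rw [Finset.sum_comm (s := Finset.univ) (t := Finset.univ)]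
      simp only [N]
      rw [← Finset.add_sum_erase Finset.univ
          (fun l : K => ∑ a : K, if g (l • (v + a • u)) = 0 then 1 else 0)
          (Finset.mem_univ (0 : K)),
        ← Finset.add_sum_erase Finset.univ
          (fun l : K => ∑ m : K, if g (l • v + m • u) = 0 then 1 else 0) (Finset.mem_univ (0 : K))]
      have h2 : ∀ l ∈ Finset.univ.erase (0 : K),
          (∑ a : K, if g (l • (v + a • u)) = 0 then 1 else 0)
          = ∑ m : K, if g (l • v + m • u) = 0 then 1 else 0 := by
        intro l hl
        have hl0 : l ≠ 0 := by simpa using hl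
        refine Fintype.sum_equiv (Equiv.mulLeft₀ l hl0) _ _ fun a => ?_
        simp [smul_add, mul_smul]
      rw [Finset.sum_congr rfl h2]
      simp only [zero_smul, map_zero, if_true, Finset.sum_const, Finset.card_univ, smul_eq_mul,
        mul_one, zero_add]
      ring
    have h2 : p ∣ N := by
      let f : K × K →+ Y :=
        { toFun := fun x => g (x.1 • v + x.2 • u)
          map_zero' := by simp
          map_add' := by
            intro x y
            rw [← map_add]
            congr 1
            simp only [Prod.fst_add, Prod.snd_add]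
            module }
      have hN : N = Nat.card f.ker := by
        have : N = ∑ x : K × K, if f x = 0 then 1 else 0 := by
          rw [Fintype.sum_prod_type]
          rfl
        rw [this, ← Finset.card_filter, ← Fintype.card_subtype, ← Nat.card_eq_fintype_card]
        rfl
      rw [hN]
      have h3 := AddSubgroup.card_mul_index f.ker
      rw [AddSubgroup.index_ker, Nat.card_prod, Nat.card_eq_fintype_card (α := K), hq] at h3
      have h4 : Nat.card f.range ≤ p ^ 3 := by
        refine le_trans ?_ hY
        exact Nat.card_le_card_of_injective _ Subtype.coe_injective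
      have h5 : Nat.card f.ker ∣ p ^ 4 := by
        refine ⟨Nat.card f.range, ?_⟩
        rw [h3]; ring
      obtain ⟨k, hk, hk2⟩ := (Nat.dvd_prime_pow (Fact.out : p.Prime)).1 h5
      have hp := (Fact.out : p.Prime).two_le
      rcases Nat.eq_zero_or_pos k with h0 | h0
      · exfalso
        rw [hk2, h0, pow_zero, one_mul] at h3
        rw [h3] at h4
        have : p ^ 2 * p ^ 2 = p ^ 3 * p := by ring
        rw [this] at h4
        have hpos : 0 < p ^ 3 := by positivity
        nlinarith
      · rw [hk2]
        exact dvd_pow_self p (by omega)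
    have h3 := congrArg (fun n : ℕ => (n : ZMod p)) h1
    simp only [Nat.cast_add, Nat.cast_sum] at h3
    simp only [T]
    rw [h3, hq]
    have h4 : (N : ZMod p) = 0 := (CharP.cast_eq_zero_iff (ZMod p) p N).2 h2
    rw [h4]
    simp

end T

section explicit

variable {K : Type u} [Field K] [Fintype K]

/-- The additive group of the prime field. -/
def S (K : Type u) [Field K] : AddSubgroup K := (⊥ : Subfield K).toSubring.toAddSubgroup

theorem mem_S {x : K} : x ∈ S K ↔ x ∈ (⊥ : Subfield K) := Iff.rfl

theorem card_S {p : ℕ} [Fact p.Prime] [CharP K p] : Nat.card (S K) = p :=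
  Subfield.card_bot K p

theorem card_quot {p : ℕ} [Fact p.Prime] [CharP K p] (hq : Fintype.card K = p ^ 2) :
    Nat.card (K ⧸ S K) = p := by
  have h := AddSubgroup.card_mul_index (S K)
  rw [card_S (p := p), Nat.card_eq_fintype_card, hq, pow_two] at h
  exact Nat.eq_of_mul_eq_mul_left (Fact.out : p.Prime).pos h

theorem card_mul_mem {p : ℕ} [Fact p.Prime] [CharP K p] {y : K} (hy : y ≠ 0) :
    Nat.card {l : K // l * y ∈ S K} = p := by
  rw [← card_S (K := K) (p := p)]
  exact Nat.card_congr ((Equiv.mulRight₀ y hy).subtypeEquiv fun l => by simp)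

/-- First map: all three coordinates modulo the prime field. -/
noncomputable def g₁ (K : Type u) [Field K] : (Fin 3 → K) →+ (Fin 3 → K ⧸ S K) where
  toFun v := fun i => QuotientAddGroup.mk (v i)
  map_zero' := by ext i; simp
  map_add' v w := by ext i; simp

/-- Second map: the second coordinate modulo the prime field, and the third coordinate. -/
noncomputable def g₂ (K : Type u) [Field K] : (Fin 3 → K) →+ ((K ⧸ S K) × K) where
  toFun v := (QuotientAddGroup.mk (v 1), v 2)
  map_zero' := by simp
  map_add' v w := by simp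

theorem g₁_eq_zero {v : Fin 3 → K} : g₁ K v = 0 ↔ ∀ i, v i ∈ S K := by
  constructor
  · intro h i
    have := congrFun h i
    exact (QuotientAddGroup.eq_zero_iff _).1 this
  · intro h
    ext i
    exact (QuotientAddGroup.eq_zero_iff _).2 (h i)

theorem g₂_eq_zero {v : Fin 3 → K} : g₂ K v = 0 ↔ v 1 ∈ S K ∧ v 2 = 0 := by
  constructor
  · intro h
    have h1 := congrArg Prod.fst h
    have h2 := congrArg Prod.snd h
    exact ⟨(QuotientAddGroup.eq_zero_iff _).1 h1, h2⟩
  · intro h
    refine Prod.ext ?_ h.2
    exact (QuotientAddGroup.eq_zero_iff _).2 h.1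

theorem T₁_of {p : ℕ} {v : Fin 3 → K} (h : ∀ l : K, l ≠ 0 → ¬ ∀ i, l * v i ∈ S K) :
    T K p (g₁ K) v = 1 := by
  unfold T
  have : Nat.card {l : K // g₁ K (l • v) = 0} = 1 := by
    rw [Nat.card_eq_one_iff_unique]
    constructor
    · constructor
      rintro ⟨a, ha⟩ ⟨b, hb⟩
      rw [g₁_eq_zero] at ha hb
      have h1 : a = 0 := by
        by_contra h0
        exact h a h0 ha
      have h2 : b = 0 := by
        by_contra h0
        exact h b h0 hb
      exact Subtype.ext (h1.trans h2.symm)
    · exact ⟨⟨0, by simp⟩⟩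
  rw [this]
  simp

theorem T₂_of_ne {p : ℕ} {v : Fin 3 → K} (h : v 2 ≠ 0) :
    T K p (g₂ K) v = 1 := by
  unfold T
  have : Nat.card {l : K // g₂ K (l • v) = 0} = 1 := by
    rw [Nat.card_eq_one_iff_unique]
    constructor
    · constructor
      rintro ⟨a, ha⟩ ⟨b, hb⟩
      rw [g₂_eq_zero] at ha hb
      have h1 : a = 0 := by
        have := ha.2
        simpa [h] using this
      have h2 : b = 0 := by
        have := hb.2
        simpa [h] using this
      exact Subtype.ext (h1.trans h2.symm)
    · exact ⟨⟨0, by simp⟩⟩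
  rw [this]
  simp

theorem T₂_of_eq {p : ℕ} [Fact p.Prime] [CharP K p] (hq : Fintype.card K = p ^ 2)
    {v : Fin 3 → K} (h : v 2 = 0) : T K p (g₂ K) v = 0 := by
  unfold T
  by_cases h1 : v 1 = 0
  · have : Nat.card {l : K // g₂ K (l • v) = 0} = p ^ 2 := by
      rw [← hq, ← Nat.card_eq_fintype_card]
      refine Nat.card_congr (Equiv.subtypeUnivEquiv fun l => ?_)
      rw [g₂_eq_zero]
      simp [h, h1]
    rw [this]
    simp
  · have : Nat.card {l : K // g₂ K (l • v) = 0} = p := by
      rw [← card_mul_mem (p := p) h1]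
      refine Nat.card_congr (Equiv.subtypeEquivRight fun l => ?_)
      rw [g₂_eq_zero]
      simp [h]
    rw [this]
    simp

theorem T₁_of_eq {p : ℕ} [Fact p.Prime] [CharP K p] (hq : Fintype.card K = p ^ 2)
    {v : Fin 3 → K} (h2 : v 2 = 0) (h : v 0 = 0 ∨ v 1 = 0) : T K p (g₁ K) v = 0 := by
  unfold T
  by_cases hv : v = 0
  · subst hv
    have : Nat.card {l : K // g₁ K (l • 0) = 0} = p ^ 2 := by
      rw [← hq, ← Nat.card_eq_fintype_card]
      refine Nat.card_congr (Equiv.subtypeUnivEquiv fun l => ?_)
      simp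
    rw [this]
    simp
  · rcases h with h | h
    · have h1 : v 1 ≠ 0 := by
        intro h1
        apply hv
        ext i
        fin_cases i <;> simp [h, h1, h2]
      have : Nat.card {l : K // g₁ K (l • v) = 0} = p := by
        rw [← card_mul_mem (p := p) h1]
        refine Nat.card_congr (Equiv.subtypeEquivRight fun l => ?_)
        rw [g₁_eq_zero]
        simp [Fin.forall_fin_succ, h, h2]
      rw [this]
      simp
    · have h1 : v 0 ≠ 0 := by
        intro h1
        apply hv
        ext i
        fin_cases i <;> simp [h, h1, h2]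
      have : Nat.card {l : K // g₁ K (l • v) = 0} = p := by
        rw [← card_mul_mem (p := p) h1]
        refine Nat.card_congr (Equiv.subtypeEquivRight fun l => ?_)
        rw [g₁_eq_zero]
        simp [Fin.forall_fin_succ, h, h2]
      rw [this]
      simp

/-- The explicit word. -/
noncomputable def W (K : Type u) [Field K] (p : ℕ) (v : Fin 3 → K) : ZMod p :=
  T K p (g₂ K) v - T K p (g₁ K) v

theorem isWord_W {p : ℕ} [Fact p.Prime] [CharP K p] (hq : Fintype.card K = p ^ 2) :
    IsWord K (W K p) := by
  apply IsWord.sub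
  · apply isWord_T hq
    rw [Nat.card_prod, card_quot hq, Nat.card_eq_fintype_card, hq]
    apply le_of_eq; ring
  · apply isWord_T hq
    rw [Nat.card_fun, card_quot hq]
    simp

theorem W_ne {p : ℕ} [Fact p.Prime] [CharP K p] :
    W K p (Pi.single 2 1) ≠ 0 := by
  have h1 : T K p (g₂ K) (Pi.single 2 1) = 1 := T₂_of_ne (by simp)
  have h2 : T K p (g₁ K) (Pi.single 2 1) = 0 := by
    unfold T
    have : Nat.card {l : K // g₁ K (l • (Pi.single 2 1 : Fin 3 → K)) = 0} = p := by
      rw [← card_mul_mem (K := K) (p := p) one_ne_zero]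
      refine Nat.card_congr (Equiv.subtypeEquivRight fun l => ?_)
      rw [g₁_eq_zero]
      simp [Fin.forall_fin_succ]
    rw [this]
    simp
  unfold W
  rw [h1, h2]
  simp

theorem cnt_W {p : ℕ} [Fact p.Prime] [CharP K p] (hq : Fintype.card K = p ^ 2) :
    cnt (W K p) (fun _ => True) ≤ (Fintype.card K - 1) * (2 * Fintype.card K - 1) := by
  classical
  let f : Kˣ × S K × S K → (Fin 3 → K) := fun x => ![x.1 * x.2.1, x.1 * x.2.2, x.1]
  let g : Kˣ × Kˣ → (Fin 3 → K) := fun x => ![x.1, x.2, 0]
  have hsub : {v | True ∧ W K p v ≠ 0} ⊆ Set.range f ∪ Set.range g := by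
    rintro v ⟨-, hv⟩
    by_cases h2 : v 2 = 0
    · right
      have h3 : v 0 ≠ 0 ∧ v 1 ≠ 0 := by
        constructor
        · intro h0
          apply hv
          unfold W
          rw [T₂_of_eq hq h2, T₁_of_eq hq h2 (Or.inl h0), sub_zero]
        · intro h0
          apply hv
          unfold W
          rw [T₂_of_eq hq h2, T₁_of_eq hq h2 (Or.inr h0), sub_zero]
      refine ⟨(Units.mk0 _ h3.1, Units.mk0 _ h3.2), ?_⟩
      ext i
      fin_cases i <;> simp [g, h2]
    · left
      have h3 : ∃ l : K, l ≠ 0 ∧ ∀ i, l * v i ∈ S K := by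
        by_contra hcon
        push Not at hcon
        apply hv
        unfold W
        rw [T₂_of_ne h2, T₁_of (fun l hl => by
          obtain ⟨i, hi⟩ := hcon l hl
          exact fun h => hi (h i)), sub_self]
      obtain ⟨l, hl, h4⟩ := h3
      have h5 : ∀ i, v i / v 2 ∈ S K := by
        intro i
        have : v i / v 2 = (l * v i) / (l * v 2) := by field_simp
        rw [this]
        exact Subfield.div_mem _ (h4 i) (h4 2)
      refine ⟨(Units.mk0 _ h2, ⟨_, h5 0⟩, ⟨_, h5 1⟩), ?_⟩
      ext i
      fin_cases i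
      · simp [f]; field_simp
      · simp [f]; field_simp
      · simp [f]
  have h1 := Set.ncard_le_ncard hsub (Set.toFinite _)
  have h2 := h1.trans (Set.ncard_union_le _ _)
  have h3 : (Set.range f).ncard ≤ (Fintype.card K - 1) * (p * p) := by
    rw [← Set.image_univ]
    refine (Set.ncard_image_le (Set.toFinite _)).trans ?_
    rw [Set.ncard_univ, Nat.card_prod, Nat.card_prod, card_S (p := p), Nat.card_eq_fintype_card,
      Fintype.card_units]
  have h4 : (Set.range g).ncard ≤ (Fintype.card K - 1) * (Fintype.card K - 1) := by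
    rw [← Set.image_univ]
    refine (Set.ncard_image_le (Set.toFinite _)).trans ?_
    rw [Set.ncard_univ, Nat.card_prod, Nat.card_eq_fintype_card,
      Fintype.card_units]
  have h5 : (Fintype.card K - 1) * (2 * Fintype.card K - 1)
      = (Fintype.card K - 1) * (p * p) + (Fintype.card K - 1) * (Fintype.card K - 1) := by
    rw [← mul_add]
    congr 1
    rw [← pow_two, ← hq]
    have : 0 < Fintype.card K := Fintype.card_pos
    omega
  rw [h5]
  change {v | True ∧ W K p v ≠ 0}.ncard ≤ _
  exact h2.trans (Nat.add_le_add h3 h4)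

theorem D2_le_bound {p : ℕ} [Fact p.Prime] [CharP K p] (hq : Fintype.card K = p ^ 2) :
    D2 K p ≤ (Fintype.card K - 1) * (2 * Fintype.card K - 1) :=
  (D2_le (by simp) (isWord_W hq) ⟨_, W_ne⟩).trans (cnt_W hq)

theorem D2_spec {p : ℕ} [Fact p.Prime] [CharP K p] (hq : Fintype.card K = p ^ 2) :
    ∃ F : (Fin 3 → K) → ZMod p, IsWord K F ∧ (∃ v, F v ≠ 0) ∧ cnt F (fun _ => True) = D2 K p := by
  have hne : {k | ∃ F : (Fin 3 → K) → ZMod p, IsWord K F ∧ (∃ v, F v ≠ 0) ∧
      cnt F (fun _ => True) = k}.Nonempty :=
    ⟨_, W K p, isWord_W hq, ⟨_, W_ne⟩, rfl⟩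
  exact Nat.sInf_mem hne

theorem D2_pos {p : ℕ} [Fact p.Prime] [CharP K p] (hq : Fintype.card K = p ^ 2) :
    0 < D2 K p := by
  obtain ⟨F, hF, ⟨v, hv⟩, h⟩ := D2_spec (K := K) (p := p) hq
  rw [← h, cnt_pos_iff]
  exact ⟨v, trivial, hv⟩

theorem dvd_D2 {p : ℕ} [Fact p.Prime] [CharP K p] (hq : Fintype.card K = p ^ 2) :
    (Fintype.card K - 1) ∣ D2 K p := by
  obtain ⟨F, hF, ⟨v, hv⟩, h⟩ := D2_spec (K := K) (p := p) hq
  rw [← h]
  exact dvd_cnt hF (fun _ _ _ _ => trivial)

end explicit

end Pool.Agent.Helper58.Cyl
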