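import Mathlib
import Pool.Agent.Helper58.Cyl.Moment
import Pool.Agent.Helper58.Cyl.Planar
import Pool.Agent.Helper58.Cyl.Hyper

/-!
Dimension four.
-/

set_option linter.unusedSectionVars false
set_option linter.style.haveILetI false

namespace Pool.Agent.Helper58.Cyl

open Module

universe u

section claim

variable {K : Type u} [Field K] [Fintype K]
variable {p : ℕ} [Fact p.Prime] [CharP K p]
variable {V : Type*} [AddCommGroup V] [Module K V]

/-- The word with values in `K`. -/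
noncomputable def lift (K : Type u) [Field K] {p : ℕ} [CharP K p] {V : Type*} (F : V → ZMod p) :
    V → K :=
  fun v => ZMod.castHom (dvd_refl p) K (F v)

theorem lift_eq_zero {F : V → ZMod p} {v : V} : lift K F v = 0 ↔ F v = 0 := by
  unfold lift
  exact map_eq_zero_iff _ (ZMod.castHom_injective K)

theorem isWord_lift {F : V → ZMod p} (hF : IsWord K F) : IsWord K (lift K F) :=
  hF.map (ZMod.castHom (dvd_refl p) K).toAddMonoidHom

theorem cnt_lift (F : V → ZMod p) (P : V → Prop) : cnt (lift K F) P = cnt F P := by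
  unfold cnt
  congr 1
  ext v
  simp [lift_eq_zero]

theorem ncard_ext_le [Finite V] (hq : Fintype.card K = p ^ 2) {F : V → ZMod p}
    (hF : IsWord K F) {P Q : V} (hM : ∑ z : K, z * lift K F (Q + z • P) ≠ 0) :
    {y : Dual K V | hyp F y = 0 ∧ y P = 0 ∧ y Q = 1}.ncard ≤ p := by
  classical
  haveI : Finite (Dual K V) := Module.finite_of_finite K
  haveI : Fintype (Dual K V) := Fintype.ofFinite _
  rw [Set.ncard_eq_toFinset_card']
  apply moment_lemma hq (isWord_lift hF) hM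
  · intro ψ hψ
    simp only [Set.mem_toFinset, Set.mem_ofPred_eq] at hψ
    exact hψ.2.1
  · intro ψ hψ
    simp only [Set.mem_toFinset, Set.mem_ofPred_eq] at hψ
    exact hψ.2.2
  · intro ψ hψ v hv
    simp only [Set.mem_toFinset, Set.mem_ofPred_eq] at hψ
    rw [lift_eq_zero]
    exact hyp_eq_zero.1 hψ.1 v hv

theorem find_P' [Finite V] {F : V → ZMod p} (hF : IsWord K F) (ψ : Dual K V)
    (hψ : hyp F ψ = 0) {Q : V} (hQ : ψ Q = 1) (hFQ : F Q ≠ 0)
    (hlt : tot F < (Fintype.card K - 1) + 2 * (Nat.card (LinearMap.ker ψ) - 1)) :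
    ∃ P : V, P ≠ 0 ∧ ψ P = 0 ∧ ∑ z : K, z * lift K F (Q + z • P) ≠ 0 := by
  apply find_P (isWord_lift hF) ψ _ hQ
  · rwa [ne_eq, lift_eq_zero]
  · rw [cnt_lift]; exact hlt
  · intro v hv
    rw [lift_eq_zero]
    exact hyp_eq_zero.1 hψ v hv

theorem exists_notMem_span [FiniteDimensional K V] {n : ℕ} (f : Fin n → V)
    (h : n < finrank K V) : ∃ v : V, v ∉ Submodule.span K (Set.range f) := by
  by_contra hcon
  push Not at hcon
  have h1 : Submodule.span K (Set.range f) = ⊤ := by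
    rw [eq_top_iff]
    intro v _
    exact hcon v
  have h2 := finrank_range_le_card (R := K) f
  rw [Set.finrank, h1, finrank_top] at h2
  simp at h2
  omega

/-- In dimension four the weight of a word that is at most the expected minimum is at least the
expected minimum. -/
theorem delta_four [Finite V] (hq : Fintype.card K = p ^ 2) (h4 : finrank K V = 4)
    {F : V → ZMod p} (hF : IsWord K F) {Q : V} (hFQ : F Q ≠ 0)
    (hLB : ∀ φ : Dual K V, φ ≠ 0 → hyp F φ = 0 ∨ D2 K p ≤ hyp F φ) :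
    Fintype.card K * D2 K p ≤ tot F := by
  classical
  by_contra hlt
  push Not at hlt
  haveI : FiniteDimensional K V := Module.finite_of_finrank_pos (by omega)
  haveI : Nontrivial V := Module.nontrivial_of_finrank_pos (R := K) (by omega)
  have hp2 : 2 ≤ p := (Fact.out : p.Prime).two_le
  have hq1 : 1 < Fintype.card K := Fintype.one_lt_card
  obtain ⟨ψ₀, hψ₀, hψ₀ext⟩ := exists_external hF (D2_pos hq) hLB hlt.le
  have hψ₀Q : ψ₀ Q ≠ 0 := by
    intro h
    exact hFQ (hyp_eq_zero.1 hψ₀ext Q h)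
  set ψ : Dual K V := (ψ₀ Q)⁻¹ • ψ₀ with hψdef
  have hψ : hyp F ψ = 0 := by
    rw [hψdef, hyp_smul _ _ (inv_ne_zero hψ₀Q)]; exact hψ₀ext
  have hψQ : ψ Q = 1 := by simp [hψdef, hψ₀Q]
  have hψne : ψ ≠ 0 := by
    intro h; rw [h] at hψQ; simp at hψQ
  have hcardV : Nat.card V = Fintype.card K ^ 4 := by
    rw [Module.natCard_eq_pow_finrank (K := K), h4, Nat.card_eq_fintype_card]
  have hker := card_mul_card_ker ψ hψne
  rw [hcardV] at hker
  have hker3 : Nat.card (LinearMap.ker ψ) = Fintype.card K ^ 3 := by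
    have : Fintype.card K * Nat.card (LinearMap.ker ψ) = Fintype.card K * Fintype.card K ^ 3 := by
      rw [hker]; ring
    exact Nat.eq_of_mul_eq_mul_left (by omega) this
  have hD := D2_le_bound (K := K) (p := p) hq
  obtain ⟨P, hP0, hψP, hM⟩ := find_P' hF ψ hψ hψQ hFQ (by
    rw [hker3]
    obtain ⟨k, hk⟩ : ∃ k, Fintype.card K = k + 2 := ⟨Fintype.card K - 2, by omega⟩
    rw [hk] at hD hlt ⊢
    have e1 : k + 2 - 1 = k + 1 := by omega
    have e2 : 2 * (k + 2) - 1 = 2 * k + 3 := by omega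
    rw [e1, e2] at hD
    have e3 : (k + 2) * D2 K p ≤ (k + 2) * ((k + 1) * (2 * k + 3)) := Nat.mul_le_mul_left _ hD
    have e4 : (k + 2) * ((k + 1) * (2 * k + 3)) = 2 * k ^ 3 + 9 * k ^ 2 + 13 * k + 6 := by ring
    have e5 : (k + 2) ^ 3 = k ^ 3 + 6 * k ^ 2 + 12 * k + 8 := by ring
    rw [e5]
    have e6 : k ^ 3 + 6 * k ^ 2 + 12 * k + 8 - 1 = k ^ 3 + 6 * k ^ 2 + 12 * k + 7 := by omega
    rw [e6, e1]
    nlinarith)
  have hcount := ncard_ext_le hq hF hM
  obtain ⟨e₃, he₃⟩ := exists_notMem_span (K := K) ![P, Q] (by rw [h4]; norm_num)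
  obtain ⟨e₄, he₄⟩ := exists_notMem_span (K := K) ![P, Q, e₃] (by rw [h4]; norm_num)
  obtain ⟨χ₁, hχ₁1, hχ₁2⟩ := exists_functional _ he₃
  obtain ⟨χ₂, hχ₂1, hχ₂2⟩ := exists_functional _ he₄
  have hχ₁P : χ₁ P = 0 := hχ₁2 P (Submodule.subset_span ⟨0, rfl⟩)
  have hχ₁Q : χ₁ Q = 0 := hχ₁2 Q (Submodule.subset_span ⟨1, rfl⟩)
  have hχ₂P : χ₂ P = 0 := hχ₂2 P (Submodule.subset_span ⟨0, rfl⟩)
  have hχ₂Q : χ₂ Q = 0 := hχ₂2 Q (Submodule.subset_span ⟨1, rfl⟩)
  have hχ₂e : χ₂ e₃ = 0 := hχ₂2 e₃ (Submodule.subset_span ⟨2, rfl⟩)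
  have key : ∀ a : K, ∃ c : K, c ≠ 0 ∧ hyp F (χ₁ + a • χ₂ + c • ψ) = 0 := by
    intro a
    obtain ⟨c, hc⟩ := exists_second hLB (ψ := ψ) (φ := χ₁ + a • χ₂) hψ (by
      intro c h0
      have h1 := congrArg (fun f => f Q) h0
      have h2 := congrArg (fun f => f e₃) h0
      simp only [LinearMap.add_apply, LinearMap.smul_apply, smul_eq_mul, LinearMap.zero_apply,
        hχ₁Q, hχ₂Q, hψQ, hχ₂e, hχ₁1, mul_zero, mul_one, zero_add, add_zero] at h1 h2
      rw [h1] at h2
      simp at h2) (Or.inl hlt)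
    refine ⟨c, ?_, hc⟩
    rintro rfl
    apply hFQ
    apply hyp_eq_zero.1 hc
    simp [hχ₁Q, hχ₂Q]
  choose c hc0 hc using key
  have hle : Nat.card K ≤ p := by
    haveI : Finite (Dual K V) := Module.finite_of_finite K
    rw [← Set.ncard_univ]
    refine le_trans ?_ hcount
    apply Set.ncard_le_ncard_of_injOn (fun a => (c a)⁻¹ • (χ₁ + a • χ₂ + c a • ψ))
    · intro a _
      refine ⟨?_, ?_, ?_⟩
      · rw [hyp_smul _ _ (inv_ne_zero (hc0 a))]; exact hc a
      · simp [hχ₁P, hχ₂P, hψP]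
      · simp [hχ₁Q, hχ₂Q, hψQ, hc0 a]
    · intro a _ b _ hab
      have h1 := congrArg (fun f => f e₃) hab
      have h2 := congrArg (fun f => f e₄) hab
      simp only [LinearMap.add_apply, LinearMap.smul_apply, smul_eq_mul, hχ₁1, hχ₂e,
        hχ₂1, mul_zero, add_zero, mul_one] at h1 h2
      have ha := hc0 a
      have hb := hc0 b
      have h3 : (c a)⁻¹ = (c b)⁻¹ := by
        have e1 : (c a)⁻¹ * (1 + c a * ψ e₃) = (c a)⁻¹ + ψ e₃ := by
          field_simp
        have e2 : (c b)⁻¹ * (1 + c b * ψ e₃) = (c b)⁻¹ + ψ e₃ := by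
          field_simp
        rw [e1, e2] at h1
        exact add_right_cancel h1
      have h4 : c a = c b := inv_injective h3
      rw [h4] at h2
      have h5 := mul_left_cancel₀ (inv_ne_zero hb) h2
      linear_combination h5
  rw [Nat.card_eq_fintype_card, hq] at hle
  nlinarith

theorem claim_four_core [Finite V] (hq : Fintype.card K = p ^ 2) (h4 : finrank K V = 4)
    {F : V → ZMod p} (hF : IsWord K F) {Q : V} (hFQ : F Q ≠ 0)
    (hLB : ∀ φ : Dual K V, φ ≠ 0 → hyp F φ = 0 ∨ D2 K p ≤ hyp F φ)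
    (hN : tot F = Fintype.card K * D2 K p) {ψ ψ' : Dual K V} (hψ : hyp F ψ = 0)
    (hψ' : hyp F ψ' = 0) (hψQ : ψ Q = 1) (hψ'Q : ψ' Q = 1) (hne : ψ' - ψ ≠ 0)
    (hmin : hyp F (ψ' - ψ) = D2 K p) : False := by
  classical
  haveI : FiniteDimensional K V := Module.finite_of_finrank_pos (by omega)
  haveI : Finite (Dual K V) := Module.finite_of_finite K
  have hp2 : 2 ≤ p := (Fact.out : p.Prime).two_le
  have hq1 : 1 < Fintype.card K := Fintype.one_lt_card
  have hD := D2_le_bound (K := K) (p := p) hq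
  have hDpos := D2_pos (K := K) (p := p) hq
  have hcardV : Nat.card V = Fintype.card K ^ 4 := by
    rw [Module.natCard_eq_pow_finrank (K := K), h4, Nat.card_eq_fintype_card]
  -- the point `P`
  obtain ⟨P, hP0, hψP, hψ'P, hM⟩ : ∃ P : V, P ≠ 0 ∧ ψ P = 0 ∧ ψ' P = 0 ∧
      ∑ z : K, z * lift K F (Q + z • P) ≠ 0 := by
    let X := LinearMap.ker (ψ' - ψ)
    have hQX : Q ∈ X := by
      change (ψ' - ψ) Q = 0
      simp [hψQ, hψ'Q]
    have hX3 : Nat.card X = Fintype.card K ^ 3 := by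
      have h1 := card_mul_card_ker (ψ' - ψ) hne
      rw [hcardV] at h1
      have : Fintype.card K * Nat.card X = Fintype.card K * Fintype.card K ^ 3 := by
        rw [h1]; ring
      exact Nat.eq_of_mul_eq_mul_left (by omega) this
    let ψX : Dual K X := ψ.comp X.subtype
    have hψXQ : ψX ⟨Q, hQX⟩ = 1 := hψQ
    have hψXne : ψX ≠ 0 := by
      intro h; rw [h] at hψXQ; simp at hψXQ
    have hker2 : Nat.card (LinearMap.ker ψX) = Fintype.card K ^ 2 := by
      have h1 := card_mul_card_ker ψX hψXne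
      rw [hX3] at h1
      have : Fintype.card K * Nat.card (LinearMap.ker ψX)
          = Fintype.card K * Fintype.card K ^ 2 := by
        rw [h1]; ring
      exact Nat.eq_of_mul_eq_mul_left (by omega) this
    obtain ⟨P, hP0, hP1, hP2⟩ := find_P' (K := K) (F := fun w : X => F w) (hF.restrict X) ψX (by
      rw [hyp_eq_zero]
      intro v hv
      exact hyp_eq_zero.1 hψ v hv) hψXQ hFQ (by
      rw [hker2]
      have h1 : tot (fun w : X => F w) = D2 K p := by
        rw [← hmin]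
        exact tot_restrict F (ψ' - ψ)
      rw [h1]
      refine lt_of_le_of_lt hD ?_
      obtain ⟨k, hk⟩ : ∃ k, Fintype.card K = k + 2 := ⟨Fintype.card K - 2, by omega⟩
      rw [hk]
      have e1 : k + 2 - 1 = k + 1 := by omega
      have e2 : 2 * (k + 2) - 1 = 2 * k + 3 := by omega
      have e3 : (k + 2) ^ 2 - 1 = k ^ 2 + 4 * k + 3 := by
        have : (k + 2) ^ 2 = k ^ 2 + 4 * k + 4 := by ring
        omega
      rw [e1, e2, e3]
      nlinarith)
    refine ⟨P, fun h => hP0 (Subtype.ext h), hP1, ?_, hP2⟩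
    have h1 : (ψ' - ψ) (P : V) = 0 := P.2
    have h2 : ψ (P : V) = 0 := hP1
    rw [LinearMap.sub_apply, h2, sub_zero] at h1
    exact h1
  have hcount := ncard_ext_le hq hF hM
  have hFP : F P = 0 := hyp_eq_zero.1 hψ P hψP
  -- the vector `e₄`
  obtain ⟨e₄, hψe₄, hψ'e₄⟩ : ∃ e₄ : V, ψ e₄ = 0 ∧ ψ' e₄ = 1 := by
    obtain ⟨v, hv⟩ : ∃ v, (ψ' - ψ) v ≠ 0 := by
      by_contra hcon
      push Not at hcon
      exact hne (LinearMap.ext hcon)
    refine ⟨((ψ' - ψ) v)⁻¹ • (v - ψ v • Q), ?_, ?_⟩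
    · simp [hψQ]
    · rw [map_smul, map_sub, map_smul, hψ'Q]
      have : ψ' v - ψ v • (1 : K) = (ψ' - ψ) v := by simp
      rw [this, smul_eq_mul, inv_mul_cancel₀ hv]
  obtain ⟨w, hw⟩ := exists_notMem_span (K := K) ![P, Q, e₄] (by rw [h4]; norm_num)
  set U := Submodule.span K (Set.range ![P, Q, e₄]) with hU
  have hPU : P ∈ U := Submodule.subset_span ⟨0, rfl⟩
  have hQU : Q ∈ U := Submodule.subset_span ⟨1, rfl⟩
  have he₄U : e₄ ∈ U := Submodule.subset_span ⟨2, rfl⟩
  set e₃ : V := w - ψ w • Q - (ψ' w - ψ w) • e₄ with he₃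
  have hψe₃ : ψ e₃ = 0 := by simp [he₃, hψQ, hψe₄]
  have hψ'e₃ : ψ' e₃ = 0 := by simp [he₃, hψ'Q, hψ'e₄]
  have he₃U : e₃ ∉ U := by
    intro h
    apply hw
    have : w = e₃ + ψ w • Q + (ψ' w - ψ w) • e₄ := by
      rw [he₃]; module
    rw [this]
    exact U.add_mem (U.add_mem h (U.smul_mem _ hQU)) (U.smul_mem _ he₄U)
  obtain ⟨τ, hτ1, hτ2⟩ := exists_functional _ he₃U
  have hτP : τ P = 0 := hτ2 P hPU
  have hτQ : τ Q = 0 := hτ2 Q hQU
  have hτe₄ : τ e₄ = 0 := hτ2 e₄ he₄U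
  -- a nonminimal functional for every parameter
  have step : ∀ l : K, ∃ c₀ : K, hyp F (τ - l • ψ + c₀ • (ψ' - ψ)) ≠ D2 K p := by
    intro l
    by_contra hcon
    push Not at hcon
    have h1 := pencil_tot F (ψ' - ψ) (τ - l • ψ)
    simp only [hcon] at h1
    rw [hmin, Finset.sum_const, Finset.card_univ, smul_eq_mul, hN] at h1
    have h2 : D2 K p = Fintype.card K * cnt F (fun v => (ψ' - ψ) v = 0 ∧ (τ - l • ψ) v = 0) := by
      omega
    have h3 : 0 < cnt F (fun v => (ψ' - ψ) v = 0 ∧ (τ - l • ψ) v = 0) := by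
      rcases Nat.eq_zero_or_pos (cnt F (fun v => (ψ' - ψ) v = 0 ∧ (τ - l • ψ) v = 0)) with h | h
      · rw [h] at h2
        omega
      · exact h
    rw [cnt_pos_iff] at h3
    obtain ⟨R, ⟨hR1, hR2⟩, hFR⟩ := h3
    obtain ⟨a, ha⟩ := hF.exists_ne hFR P
    have h4 : 2 * (Fintype.card K - 1)
        ≤ cnt F (fun v => (ψ' - ψ) v = 0 ∧ (τ - l • ψ) v = 0) := by
      apply two_lines hF _ hFR ha ⟨hR1, hR2⟩
      · constructor
        · rw [map_add, map_smul, hR1]
          simp [hψP, hψ'P]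
        · rw [map_add, map_smul, hR2]
          simp [hψP, hτP]
      · intro b hb
        have h5 : P = (b - a) • R := by
          rw [sub_smul, ← hb]; simp
        have h6 : b - a ≠ 0 := by
          intro h0
          rw [h0, zero_smul] at h5
          exact hP0 h5
        rw [h5, hF.smul _ _ h6] at hFP
        exact hFR hFP
      · rintro b v ⟨h5, h6⟩
        simp only [map_smul, h5, h6, smul_zero, and_self]
    have h5 : Fintype.card K * (2 * (Fintype.card K - 1)) ≤ D2 K p := by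
      rw [h2]
      exact Nat.mul_le_mul_left _ h4
    have h6 := h5.trans hD
    obtain ⟨k, hk⟩ : ∃ k, Fintype.card K = k + 2 := ⟨Fintype.card K - 2, by omega⟩
    rw [hk] at h6
    have e1 : k + 2 - 1 = k + 1 := by omega
    have e2 : 2 * (k + 2) - 1 = 2 * k + 3 := by omega
    rw [e1, e2] at h6
    nlinarith
  choose c₀ hc₀ using step
  have step2 : ∀ l : K, ∃ c : K, hyp F (τ - l • ψ + c₀ l • (ψ' - ψ) + c • ψ) = 0 := by
    intro l
    apply exists_second hLB hψ _ (Or.inr ⟨hN.le, hc₀ l⟩)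
    intro c h0
    have h1 := congrArg (fun f => f e₃) h0
    simp [hτ1, hψe₃, hψ'e₃] at h1
  have step3 : ∀ l : K, ∃ c : K, hyp F (τ - l • ψ + c₀ l • (ψ' - ψ) + c • ψ') = 0 := by
    intro l
    apply exists_second hLB hψ' _ (Or.inr ⟨hN.le, hc₀ l⟩)
    intro c h0
    have h1 := congrArg (fun f => f e₃) h0
    simp [hτ1, hψe₃, hψ'e₃] at h1
  choose c hc using step2
  choose c' hc' using step3
  have hcl : ∀ l, c l - l ≠ 0 := by
    intro l h
    apply hFQ
    apply hyp_eq_zero.1 (hc l)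
    simp only [LinearMap.add_apply, LinearMap.sub_apply, LinearMap.smul_apply, smul_eq_mul, hτQ,
      hψQ, hψ'Q]
    linear_combination h
  have hcl' : ∀ l, c' l - l ≠ 0 := by
    intro l h
    apply hFQ
    apply hyp_eq_zero.1 (hc' l)
    simp only [LinearMap.add_apply, LinearMap.sub_apply, LinearMap.smul_apply, smul_eq_mul, hτQ,
      hψQ, hψ'Q]
    linear_combination h
  let Y : Set (Dual K V) := {y | (hyp F y = 0 ∧ y P = 0 ∧ y Q = 1) ∧ y e₃ ≠ 0}
  have hY : Y.ncard + 1 ≤ p := by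
    have h1 : insert ψ Y ⊆ {y : Dual K V | hyp F y = 0 ∧ y P = 0 ∧ y Q = 1} := by
      intro y hy
      rcases hy with rfl | hy
      · exact ⟨hψ, hψP, hψQ⟩
      · exact hy.1
    have h2 : ψ ∉ Y := fun h => h.2 hψe₃
    have h3 := Set.ncard_le_ncard h1 (Set.toFinite _)
    rw [Set.ncard_insert_of_notMem h2 (Set.toFinite _)] at h3
    omega
  have hbig : Nat.card K ≤ (Y ×ˢ Y).ncard := by
    rw [← Set.ncard_univ]
    apply Set.ncard_le_ncard_of_injOn (fun l =>
      ((c l - l)⁻¹ • (τ - l • ψ + c₀ l • (ψ' - ψ) + c l • ψ),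
       (c' l - l)⁻¹ • (τ - l • ψ + c₀ l • (ψ' - ψ) + c' l • ψ')))
    · intro l _
      have h1 := hcl l
      have h2 := hcl' l
      refine ⟨⟨⟨?_, ?_, ?_⟩, ?_⟩, ⟨⟨?_, ?_, ?_⟩, ?_⟩⟩
      · rw [hyp_smul _ _ (inv_ne_zero h1)]; exact hc l
      · simp [hτP, hψP, hψ'P]
      · simp only [LinearMap.add_apply, LinearMap.sub_apply, LinearMap.smul_apply, smul_eq_mul,
          hτQ, hψQ, hψ'Q]
        field_simp
        ring
      · simp [hτ1, hψe₃, hψ'e₃, h1]
      · rw [hyp_smul _ _ (inv_ne_zero h2)]; exact hc' l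
      · simp [hτP, hψP, hψ'P]
      · simp only [LinearMap.add_apply, LinearMap.sub_apply, LinearMap.smul_apply, smul_eq_mul,
          hτQ, hψQ, hψ'Q]
        field_simp
        ring
      · simp [hτ1, hψe₃, hψ'e₃, h2]
    · intro l _ m _ hlm
      have h1 := congrArg (fun f => (Prod.fst f) e₃) hlm
      have h2 := congrArg (fun f => (Prod.fst f) e₄) hlm
      have h3 := congrArg (fun f => (Prod.snd f) e₃) hlm
      have h4 := congrArg (fun f => (Prod.snd f) e₄) hlm
      simp only [LinearMap.add_apply, LinearMap.sub_apply, LinearMap.smul_apply, smul_eq_mul,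
        hτ1, hψe₃, hψ'e₃, hτe₄, hψe₄, hψ'e₄, mul_zero, sub_zero, mul_one, zero_add,
        add_zero] at h1 h2 h3 h4
      have b1 : c l - l = c m - m := inv_injective h1
      have b3 : c' l - l = c' m - m := inv_injective h3
      rw [b1] at h2
      rw [b3] at h4
      have b2 := mul_left_cancel₀ (inv_ne_zero (hcl m)) h2
      have b4 := mul_left_cancel₀ (inv_ne_zero (hcl' m)) h4
      linear_combination b4 - b2 - b3
  rw [Set.ncard_prod, Nat.card_eq_fintype_card, hq] at hbig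
  have : Y.ncard * Y.ncard ≤ (p - 1) * (p - 1) := Nat.mul_le_mul (by omega) (by omega)
  obtain ⟨k, rfl⟩ : ∃ k, p = k + 2 := ⟨p - 2, by omega⟩
  have e1 : k + 2 - 1 = k + 1 := by omega
  rw [e1] at this
  nlinarith

end claim

end Pool.Agent.Helper58.Cyl
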