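import Mathlib
import Pool.Agent.Helper58.Cyl.Claim

/-!
The induction on the dimension.
-/

set_option linter.unusedSectionVars false
set_option linter.style.haveILetI false

namespace Pool.Agent.Helper58.Cyl

open Module

universe u v

section induct

variable {K : Type u} [Field K] [Fintype K]
variable {p : ℕ} [Fact p.Prime] [CharP K p]

/-- The lower bound and the structure of words of minimum weight in dimension `k + 3`. -/
def TT (K : Type u) [Field K] [Fintype K] (p : ℕ) (k : ℕ) : Prop :=
  ∀ (V : Type v) [AddCommGroup V] [Module K V] [Finite V] (F : V → ZMod p),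
    finrank K V = k + 3 → IsWord K F → (∃ v, F v ≠ 0) →
      Fintype.card K ^ k * D2 K p ≤ tot F ∧
      (tot F ≤ Fintype.card K ^ k * D2 K p →
        ∃ ρ : Submodule K V, finrank K ρ = k ∧ ∀ r ∈ ρ, ∀ v, F (v + r) = F v)

/-- Two external functionals do not span a minimal one, in dimension `k + 4`. -/
def CC (K : Type u) [Field K] [Fintype K] (p : ℕ) (k : ℕ) : Prop :=
  ∀ (V : Type v) [AddCommGroup V] [Module K V] [Finite V] (F : V → ZMod p),
    finrank K V = k + 4 → IsWord K F → tot F ≤ Fintype.card K ^ (k + 1) * D2 K p →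
      ∀ (ψ y : Dual K V) (α β : K), hyp F ψ = 0 → hyp F y = 0 → (∀ c : K, y ≠ c • ψ) →
        α • ψ + β • y ≠ 0 → hyp F (α • ψ + β • y) = Fintype.card K ^ k * D2 K p → False

theorem TT_zero : TT.{u, v} K p 0 := by
  intro V _ _ _ F h3 hF hne
  refine ⟨?_, fun _ => ⟨⊥, by simp, ?_⟩⟩
  · rw [pow_zero, one_mul]
    exact D2_le h3 hF hne
  · intro r hr v
    rw [Submodule.mem_bot] at hr
    rw [hr, add_zero]

theorem finrank_ker {V : Type v} [AddCommGroup V] [Module K V] [Finite V] {n : ℕ}
    (h : finrank K V = n + 1) {φ : Dual K V} (hφ : φ ≠ 0) :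
    finrank K (LinearMap.ker φ) = n := by
  haveI : FiniteDimensional K V := Module.finite_of_finrank_pos (by omega)
  have h1 := LinearMap.finrank_range_add_finrank_ker φ
  have h2 : LinearMap.range φ = ⊤ := by
    rw [LinearMap.range_eq_top]
    exact LinearMap.surjective_of_ne_zero hφ
  rw [h2, finrank_top, finrank_self, h] at h1
  omega

theorem lower_bound {k : ℕ} (hTT : TT.{u, v} K p k) {V : Type v} [AddCommGroup V] [Module K V]
    [Finite V] (h : finrank K V = k + 4) {F : V → ZMod p} (hF : IsWord K F) (φ : Dual K V)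
    (hφ : φ ≠ 0) : hyp F φ = 0 ∨ Fintype.card K ^ k * D2 K p ≤ hyp F φ := by
  rcases Nat.eq_zero_or_pos (hyp F φ) with h0 | h0
  · exact Or.inl h0
  · right
    obtain ⟨v, hv, hFv⟩ := cnt_pos_iff.1 h0
    have := (hTT (LinearMap.ker φ) (fun w => F w) (finrank_ker (n := k + 3) (by omega) hφ)
      (hF.restrict _) ⟨⟨v, hv⟩, hFv⟩).1
    rwa [tot_restrict] at this

theorem CC_zero (hq : Fintype.card K = p ^ 2) : CC.{u, v} K p 0 := by
  intro V _ _ _ F h4 hF hN ψ y α β hψ hy hind hne hmin
  rw [pow_zero, one_mul] at hmin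
  rw [zero_add, pow_one] at hN
  have hLB : ∀ φ : Dual K V, φ ≠ 0 → hyp F φ = 0 ∨ D2 K p ≤ hyp F φ := by
    intro φ hφ
    have := lower_bound (k := 0) (TT_zero (K := K) (p := p)) h4 hF φ hφ
    rwa [pow_zero, one_mul] at this
  have hpos : 0 < hyp F (α • ψ + β • y) := by
    rw [hmin]; exact D2_pos hq
  obtain ⟨Q, hQ, hFQ⟩ := cnt_pos_iff.1 hpos
  have hN2 : tot F = Fintype.card K * D2 K p :=
    le_antisymm hN (delta_four hq h4 hF hFQ hLB)
  have hψQ : ψ Q ≠ 0 := fun h => hFQ (hyp_eq_zero.1 hψ Q h)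
  have hyQ : y Q ≠ 0 := fun h => hFQ (hyp_eq_zero.1 hy Q h)
  have hQ' : α * ψ Q + β * y Q = 0 := by simpa using hQ
  have e : α • ψ + β • y = (β * y Q) • ((y Q)⁻¹ • y - (ψ Q)⁻¹ • ψ) := by
    ext v
    simp only [LinearMap.add_apply, LinearMap.sub_apply, LinearMap.smul_apply, smul_eq_mul]
    field_simp
    linear_combination (ψ v) * hQ'
  have hβ : β * y Q ≠ 0 := by
    intro h0
    rw [h0, zero_smul] at e
    exact hne e
  refine claim_four_core hq h4 hF hFQ hLB hN2 (ψ := (ψ Q)⁻¹ • ψ) (ψ' := (y Q)⁻¹ • y)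
    ?_ ?_ ?_ ?_ ?_ ?_
  · rw [hyp_smul _ _ (inv_ne_zero hψQ)]; exact hψ
  · rw [hyp_smul _ _ (inv_ne_zero hyQ)]; exact hy
  · simp [hψQ]
  · simp [hyQ]
  · intro h0
    rw [h0, smul_zero] at e
    exact hne e
  · rw [e, hyp_smul _ _ hβ] at hmin
    exact hmin

theorem CC_succ (hq : Fintype.card K = p ^ 2) {k : ℕ} (hTT : TT.{u, v} K p (k + 1))
    (hCC : CC.{u, v} K p k) : CC.{u, v} K p (k + 1) := by
  classical
  intro V _ _ _ F hV hF hN ψ y α β hψ hy hind hne hmin
  have hq1 : 1 < Fintype.card K := Fintype.one_lt_card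
  have hDpos := D2_pos (K := K) (p := p) hq
  set χ := α • ψ + β • y with hχ
  have hLB := lower_bound hTT (by omega) hF
  set D := Fintype.card K ^ (k + 1) * D2 K p with hD
  have hD0 : 0 < D := by positivity
  have hN' : tot F ≤ Fintype.card K * D := by
    rw [hD, ← mul_assoc, ← pow_succ']; exact hN
  have hpos : 0 < hyp F χ := by rw [hmin]; exact hD0
  obtain ⟨Q, hQ, hFQ⟩ := cnt_pos_iff.1 hpos
  -- an invariant vector in the minimal hyperplane
  obtain ⟨ρ, hρ1, hρ2⟩ := (hTT (LinearMap.ker χ) (fun w => F w)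
    (finrank_ker (n := k + 1 + 3) (by omega) hne) (hF.restrict _) ⟨⟨Q, hQ⟩, hFQ⟩).2
    (by rw [tot_restrict, hmin])
  obtain ⟨r, hr0⟩ : ∃ r : ρ, r ≠ 0 := by
    haveI : Nontrivial ρ := Module.nontrivial_of_finrank_pos (R := K) (by omega)
    exact exists_ne 0
  set r₀ : V := ((r : LinearMap.ker χ) : V) with hr₀
  have hr₀0 : r₀ ≠ 0 := by
    intro h
    apply hr0
    apply Subtype.ext
    apply Subtype.ext
    exact h
  have hχr : χ r₀ = 0 := (r : LinearMap.ker χ).2
  have hinv : ∀ (a : K) (v : V), χ v = 0 → F (v + a • r₀) = F v := by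
    intro a v hv
    exact hρ2 (a • (r : LinearMap.ker χ)) (ρ.smul_mem _ r.2) ⟨v, hv⟩
  have hext : ∀ φ : Dual K V, hyp F φ = 0 → φ r₀ = 0 := by
    intro φ hφ
    by_contra hφr
    have h1 := hinv (-(φ Q) / φ r₀) Q hQ
    have h2 : F (Q + (-(φ Q) / φ r₀) • r₀) = 0 := by
      apply hyp_eq_zero.1 hφ
      rw [map_add, map_smul, smul_eq_mul]
      field_simp
      ring
    rw [h2] at h1
    exact hFQ h1.symm
  have hψr := hext ψ hψ
  have hyr := hext y hy
  obtain ⟨φ, hφr, -⟩ := exists_functional (⊥ : Submodule K V) (v := r₀) (by simpa using hr₀0)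
  have hφ0 : φ ≠ 0 := by
    intro h; rw [h] at hφr; simp at hφr
  -- counts
  set C := cnt F (fun v => χ v = 0 ∧ φ v = 0) with hC
  have hCle : Fintype.card K * C ≤ hyp F χ := by
    have h1 : ((Set.univ : Set K) ×ˢ {v | (χ v = 0 ∧ φ v = 0) ∧ F v ≠ 0}).ncard ≤ hyp F χ := by
      unfold hyp cnt
      apply Set.ncard_le_ncard_of_injOn (fun x => x.2 + x.1 • r₀)
      · rintro ⟨a, v⟩ ⟨-, ⟨h1, h2⟩, h3⟩
        refine ⟨?_, ?_⟩
        · simp only [map_add, map_smul]
          rw [hχr, smul_zero, add_zero]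
          exact h1
        · rw [hinv a v h1]; exact h3
      · rintro ⟨a, v⟩ ⟨-, ⟨h1, h2⟩, h3⟩ ⟨b, w⟩ ⟨-, ⟨h4, h5⟩, h6⟩ h
        simp only at h h1 h2 h3 h4 h5 h6
        have h7 := congrArg φ h
        simp only [map_add, map_smul, h2, h5, hφr, smul_eq_mul, mul_one, zero_add] at h7
        subst h7
        have h8 := add_right_cancel h
        rw [h8]
    rw [Set.ncard_prod, Set.ncard_univ, Nat.card_eq_fintype_card] at h1
    exact h1
  have hφc : ∀ c : K, D ≤ hyp F (φ + c • χ) := by
    intro c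
    rcases hLB (φ + c • χ) (by
      intro h0
      have := congrArg (fun f => f r₀) h0
      simp [hφr, hχr] at this) with h | h
    · exfalso
      have h1 := hyp_eq_zero.1 h (Q + (-(φ Q)) • r₀) (by
        have : χ Q = 0 := hQ
        simp [hφr, hχr, this])
      rw [hinv _ _ hQ] at h1
      exact hFQ h1
    · exact h
  have hpen := pencil_tot F χ φ
  rw [← hC, hmin] at hpen
  rw [hmin] at hCle
  have hsum : ∑ c : K, D ≤ ∑ c : K, hyp F (φ + c • χ) := Finset.sum_le_sum (fun c _ => hφc c)
  rw [Finset.sum_const, Finset.card_univ, smul_eq_mul] at hsum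
  have hCeq : Fintype.card K * C = D := by omega
  have hsum2 : ∑ c : K, hyp F (φ + c • χ) = Fintype.card K * D := by omega
  have hφD : hyp F φ = D := by
    by_contra hne'
    have h6 : D < hyp F (φ + (0 : K) • χ) := by
      have := hφc 0
      rw [zero_smul, add_zero] at this ⊢
      omega
    have h7 : ∑ c : K, D < ∑ c : K, hyp F (φ + c • χ) :=
      Finset.sum_lt_sum (fun c _ => hφc c) ⟨0, Finset.mem_univ _, h6⟩
    rw [Finset.sum_const, Finset.card_univ, smul_eq_mul] at h7
    omega
  have hCD : C = Fintype.card K ^ k * D2 K p := by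
    have : Fintype.card K * C = Fintype.card K * (Fintype.card K ^ k * D2 K p) := by
      rw [hCeq, hD]; ring
    exact Nat.eq_of_mul_eq_mul_left (by omega) this
  -- go down to the kernel of `φ`
  set X := LinearMap.ker φ with hX
  have hdec : ∀ f : Dual K V, f r₀ = 0 → (∀ w : X, f w = 0) → f = 0 := by
    intro f hf1 hf2
    ext v
    have h1 := hf2 ⟨v - φ v • r₀, by
      rw [hX, LinearMap.mem_ker, map_sub, map_smul, hφr]; simp⟩
    have h2 : f (v - φ v • r₀) = 0 := h1
    rw [map_sub, map_smul, hf1, smul_zero, sub_zero] at h2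
    simpa using h2
  refine hCC X (fun w => F w) (finrank_ker (n := k + 4) (by omega) hφ0) (hF.restrict _) ?_
    (ψ.comp X.subtype) (y.comp X.subtype) α β ?_ ?_ ?_ ?_ ?_
  · rw [tot_restrict, hφD]
  · rw [hyp_eq_zero]
    intro v hv
    exact hyp_eq_zero.1 hψ v hv
  · rw [hyp_eq_zero]
    intro v hv
    exact hyp_eq_zero.1 hy v hv
  · intro c hc
    apply hind c
    have := hdec (y - c • ψ) (by simp [hψr, hyr]) (by
      intro w
      have := congrArg (fun f => f w) hc
      simp only [LinearMap.comp_apply, LinearMap.smul_apply, Submodule.subtype_apply] at this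
      simp [this])
    exact sub_eq_zero.1 this
  · intro h0
    apply hne
    apply hdec χ hχr
    intro w
    have := congrArg (fun f => f w) h0
    simpa [hχ] using this
  · rw [← hCD, hC]
    have h1 := cnt_subtype (F := F) (P := fun v => χ v = 0) X
    have h2 : cnt F (fun v => v ∈ X ∧ χ v = 0) = cnt F (fun v => χ v = 0 ∧ φ v = 0) := by
      apply cnt_congr
      intro v _
      rw [hX, LinearMap.mem_ker]
      exact And.comm
    rw [← h2, ← h1]
    rfl

theorem TT_succ (hq : Fintype.card K = p ^ 2) {k : ℕ} (hTT : TT.{u, v} K p k)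
    (hCC : CC.{u, v} K p k) : TT.{u, v} K p (k + 1) := by
  classical
  intro V _ _ _ F hV hF hne
  by_cases hN : tot F ≤ Fintype.card K ^ (k + 1) * D2 K p
  swap
  · exact ⟨by omega, fun h => absurd h hN⟩
  obtain ⟨Q, hFQ⟩ := hne
  haveI : FiniteDimensional K V := Module.finite_of_finrank_pos (by omega)
  haveI : Nontrivial V := Module.nontrivial_of_finrank_pos (R := K) (by omega)
  haveI : Finite (Dual K V) := Module.finite_of_finite K
  haveI : Fintype (Dual K V) := Fintype.ofFinite _
  have hq1 : 1 < Fintype.card K := Fintype.one_lt_card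
  have hDpos := D2_pos (K := K) (p := p) hq
  have hLBG : ∀ G : V → ZMod p, IsWord K G → ∀ φ : Dual K V, φ ≠ 0 →
      hyp G φ = 0 ∨ Fintype.card K ^ k * D2 K p ≤ hyp G φ :=
    fun G hG => lower_bound hTT (by omega) hG
  have hLB := hLBG F hF
  set D := Fintype.card K ^ k * D2 K p with hD
  have hD0 : 0 < D := by positivity
  have hN' : tot F ≤ Fintype.card K * D := by
    rw [hD, ← mul_assoc, ← pow_succ']; exact hN
  have hdvd : (Fintype.card K - 1) ∣ D := Dvd.dvd.mul_left (dvd_D2 hq) _
  obtain ⟨ψ, hψ0, hψ⟩ := exists_external hF hD0 hLB hN'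
  obtain ⟨w, hw⟩ := exists_notMem_span (K := K) ![Q] (by omega)
  have hw' : w ∉ Submodule.span K {Q} := by simpa using hw
  obtain ⟨χ₀, hχ₀0, hχ₀Q, hχ₀⟩ := exists_minimal hF hdvd hLB hN' hFQ hw'
  -- the nonminimal functionals form a cone over the external ones
  have cone : ∀ φ : Dual K V, (φ = 0 ∨ hyp F φ ≠ D) → ∀ η : Dual K V, hyp F η = 0 → ∀ c : K,
      (φ + c • η = 0 ∨ hyp F (φ + c • η) ≠ D) := by
    intro φ hφ η hη c
    by_cases hdep : ∃ c₁ : K, φ + c₁ • η = 0
    · obtain ⟨c₁, hc₁⟩ := hdep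
      have e : φ + c • η = (c - c₁) • η := by
        rw [eq_neg_of_add_eq_zero_left hc₁]
        module
      by_cases h0 : c - c₁ = 0
      · left
        rw [e, h0, zero_smul]
      · right
        rw [e, hyp_smul _ _ h0, hη]
        omega
    · push Not at hdep
      by_contra hcon
      push Not at hcon
      have hφ0 : φ ≠ 0 := by
        intro h0
        apply hdep 0
        rw [h0]; simp
      have hφD : hyp F φ ≠ D := by
        rcases hφ with h | h
        · exact absurd h hφ0
        · exact h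
      obtain ⟨c₂, hc₂⟩ := exists_second hLB hη hdep (Or.inr ⟨hN', hφD⟩)
      have e : φ + c • η = (c - c₂) • η + (1 : K) • (φ + c₂ • η) := by module
      refine hCC V F (by omega) hF hN η (φ + c₂ • η) (c - c₂) 1 hη hc₂ ?_ ?_ ?_
      · intro c' hc'
        apply hdep (c₂ - c')
        have : φ + (c₂ - c') • η = (φ + c₂ • η) - c' • η := by module
        rw [this, hc', sub_self]
      · rw [← e]; exact hcon.1
      · rw [← e]; exact hcon.2
  set E : Submodule K (Dual K V) := Submodule.span K {φ | hyp F φ = 0} with hE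
  have hEcone : ∀ η ∈ E, ∀ φ : Dual K V, (φ = 0 ∨ hyp F φ ≠ D) → ∀ c : K,
      (φ + c • η = 0 ∨ hyp F (φ + c • η) ≠ D) := by
    intro η hη
    induction hη using Submodule.span_induction with
    | mem η h => exact fun φ hφ c => cone φ hφ η h c
    | zero =>
      intro φ hφ c
      rw [smul_zero, add_zero]; exact hφ
    | add x y _ _ hx hy =>
      intro φ hφ c
      rw [smul_add, ← add_assoc]
      exact hy _ (hx _ hφ c) c
    | smul a x _ hx =>
      intro φ hφ c
      rw [← mul_smul]
      exact hx φ hφ _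
  have hχ₀E : χ₀ ∉ E := by
    intro h
    have := hEcone χ₀ h 0 (Or.inl rfl) 1
    rw [zero_add, one_smul] at this
    rcases this with h | h
    · exact hχ₀0 h
    · exact h hχ₀
  obtain ⟨f, hf1, hf2⟩ := exists_functional E hχ₀E
  set r : V := (Module.evalEquiv K V).symm f with hr
  have hev : ∀ φ : Dual K V, f φ = φ r := by
    intro φ
    have h1 : Module.evalEquiv K V r = f := by rw [hr]; simp
    rw [← h1]
    rfl
  have hχ₀r : χ₀ r = 1 := by rw [← hev]; exact hf1
  have hext : ∀ φ : Dual K V, hyp F φ = 0 → φ r = 0 := by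
    intro φ hφ
    rw [← hev]
    exact hf2 φ (Submodule.subset_span hφ)
  have hFr : F r = 0 := hyp_eq_zero.1 hψ r (hext ψ hψ)
  have hFar : ∀ a : K, F (a • r) = 0 := by
    intro a
    by_cases ha : a = 0
    · rw [ha, zero_smul, hF.zero]
    · rw [hF.smul _ _ ha, hFr]
  have hDle : ∀ φ : Dual K V, φ r = 1 → D ≤ hyp F φ := by
    intro φ hφ
    rcases hLB φ (by intro h0; rw [h0] at hφ; simp at hφ) with h | h
    · have := hext φ h
      rw [hφ] at this
      exact absurd this one_ne_zero
    · exact h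
  have hψr := hext ψ hψ
  have hsumψ : ∀ φ : Dual K V, ∑ c : K, hyp F (φ + c • ψ) = tot F := by
    intro φ
    have h2 := pencil_tot F ψ φ
    have h3 : cnt F (fun v => ψ v = 0 ∧ φ v = 0) = 0 := by
      rw [cnt_eq_zero_iff]
      intro v hv
      exact hyp_eq_zero.1 hψ v hv.1
    rw [hψ, h3, zero_add, mul_zero, add_zero] at h2
    exact h2
  have hNge : Fintype.card K * D ≤ tot F := by
    rw [← hsumψ χ₀]
    have h4 : ∑ c : K, D ≤ ∑ c : K, hyp F (χ₀ + c • ψ) :=
      Finset.sum_le_sum (fun c _ => hDle _ (by simp [hχ₀r, hψr]))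
    rw [Finset.sum_const, Finset.card_univ, smul_eq_mul] at h4
    exact h4
  have hNeq : tot F = Fintype.card K * D := le_antisymm hN' hNge
  have hDeq : ∀ φ : Dual K V, φ r = 1 → hyp F φ = D := by
    intro φ hφ
    by_contra hne'
    have h5 : ∀ c : K, D ≤ hyp F (φ + c • ψ) := fun c => hDle _ (by simp [hφ, hψr])
    have h6 : D < hyp F (φ + (0 : K) • ψ) := by
      have := h5 0
      rw [zero_smul, add_zero] at this ⊢
      omega
    have h7 : ∑ c : K, D < ∑ c : K, hyp F (φ + c • ψ) :=
      Finset.sum_lt_sum (fun c _ => h5 c) ⟨0, Finset.mem_univ _, h6⟩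
    rw [Finset.sum_const, Finset.card_univ, smul_eq_mul, hsumψ φ] at h7
    omega
  -- counts in subspaces through `r`
  have K1 : ∀ X : Finset (Dual K V), (∀ χ ∈ X, χ r = 0) → ∀ φ : Dual K V, φ r = 1 →
      cnt F (fun v => ∀ χ ∈ X, χ v = 0)
        = Fintype.card K * cnt F (fun v => (∀ χ ∈ X, χ v = 0) ∧ φ v = 0) := by
    intro X
    induction X using Finset.induction_on with
    | empty =>
      intro _ φ hφ
      have h1 : cnt F (fun v => ∀ χ ∈ (∅ : Finset (Dual K V)), χ v = 0) = tot F := by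
        unfold tot; apply cnt_congr; simp
      have h2 : cnt F (fun v => (∀ χ ∈ (∅ : Finset (Dual K V)), χ v = 0) ∧ φ v = 0)
          = hyp F φ := by
        unfold hyp; apply cnt_congr; simp
      rw [h1, h2, hDeq φ hφ, hNeq]
    | insert χ X hχX ih =>
      intro hX φ hφ
      have hXr : ∀ χ ∈ X, χ r = 0 := fun χ h => hX χ (Finset.mem_insert_of_mem h)
      have hχr : χ r = 0 := hX χ (Finset.mem_insert_self _ _)
      have h1 := pencil F (fun v => ∀ χ ∈ X, χ v = 0) χ φ
      have h2 : ∀ c : K, cnt F (fun v => ∀ χ ∈ X, χ v = 0)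
          = Fintype.card K * cnt F (fun v => (∀ χ ∈ X, χ v = 0) ∧ (φ + c • χ) v = 0) :=
        fun c => ih hXr (φ + c • χ) (by simp [hφ, hχr])
      have h3 : Fintype.card K * ∑ c : K,
          cnt F (fun v => (∀ χ ∈ X, χ v = 0) ∧ (φ + c • χ) v = 0)
          = Fintype.card K * cnt F (fun v => ∀ χ ∈ X, χ v = 0) := by
        rw [Finset.mul_sum, Finset.sum_congr rfl (fun c _ => (h2 c).symm), Finset.sum_const,
          Finset.card_univ, smul_eq_mul]
      have h4 := Nat.eq_of_mul_eq_mul_left (by omega) h3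
      have h5 : cnt F (fun v => ∀ χ' ∈ insert χ X, χ' v = 0)
          = cnt F (fun v => (∀ χ ∈ X, χ v = 0) ∧ χ v = 0) := by
        apply cnt_congr
        intro v _
        simp only [Finset.mem_insert, forall_eq_or_imp]
        exact And.comm
      have h6 : cnt F (fun v => (∀ χ' ∈ insert χ X, χ' v = 0) ∧ φ v = 0)
          = cnt F (fun v => (∀ χ ∈ X, χ v = 0) ∧ χ v = 0 ∧ φ v = 0) := by
        apply cnt_congr
        intro v _
        simp only [Finset.mem_insert, forall_eq_or_imp]
        tauto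
      rw [h5, h6]
      omega
  -- the support is invariant under translations by multiples of `r`
  have supp : ∀ v : V, F v ≠ 0 → ∀ μ : K, F (v + μ • r) ≠ 0 := by
    intro v hFv μ
    have hvr : v ∉ Submodule.span K {r} := by
      intro h
      obtain ⟨a, rfl⟩ := Submodule.mem_span_singleton.1 h
      exact hFv (hFar a)
    obtain ⟨κ, hκv, hκr'⟩ := exists_functional _ hvr
    have hκr : κ r = 0 := hκr' r (Submodule.mem_span_singleton_self r)
    set φ : Dual K V := χ₀ - (χ₀ v + μ) • κ with hφ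
    have hφr : φ r = 1 := by simp [hφ, hχ₀r, hκr]
    have hφv : φ v = -μ := by simp [hφ, hκv]
    let X : Finset (Dual K V) := Finset.univ.filter (fun χ => χ v = 0 ∧ χ r = 0)
    have hX : ∀ χ, χ ∈ X ↔ χ v = 0 ∧ χ r = 0 := by
      intro χ; simp [X]
    have h1 := K1 X (fun χ h => ((hX χ).1 h).2) φ hφr
    have h2 : 0 < cnt F (fun v => ∀ χ ∈ X, χ v = 0) :=
      cnt_pos_iff.2 ⟨v, fun χ h => ((hX χ).1 h).1, hFv⟩
    have h3 : 0 < cnt F (fun v => (∀ χ ∈ X, χ v = 0) ∧ φ v = 0) := by
      rcases Nat.eq_zero_or_pos (cnt F (fun v => (∀ χ ∈ X, χ v = 0) ∧ φ v = 0)) with h | h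
      · rw [h] at h1; omega
      · exact h
    obtain ⟨w, ⟨hw1, hw2⟩, hFw⟩ := cnt_pos_iff.1 h3
    have hwspan : w ∈ Submodule.span K {v, r} := by
      by_contra hcon
      obtain ⟨χ, hχ1, hχ2⟩ := exists_functional _ hcon
      have := hw1 χ ((hX χ).2 ⟨hχ2 v (Submodule.subset_span (by simp)),
        hχ2 r (Submodule.subset_span (by simp))⟩)
      rw [hχ1] at this
      exact one_ne_zero this
    obtain ⟨a, b, hab⟩ := Submodule.mem_span_pair.1 hwspan
    rw [← hab] at hw2 hFw
    have hb : b = a * μ := by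
      simp only [map_add, map_smul, hφv, hφr, smul_eq_mul, mul_one] at hw2
      linear_combination hw2
    have hw3 : a • v + b • r = a • (v + μ • r) := by
      rw [hb]; module
    rw [hw3] at hFw
    have ha : a ≠ 0 := by
      intro h0
      rw [h0, zero_smul, hF.zero] at hFw
      exact hFw rfl
    rwa [hF.smul _ _ ha] at hFw
  -- the values
  have values : ∀ v : V, F v ≠ 0 → F (v + r) = F v := by
    intro v hFv
    have hvr : v ∉ Submodule.span K {r} := by
      intro h
      obtain ⟨a, rfl⟩ := Submodule.mem_span_singleton.1 h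
      exact hFv (hFar a)
    obtain ⟨u, hu⟩ := exists_notMem_span (K := K) ![v, r] (by omega)
    have hspan : Set.range ![v, r] = {v, r} := by
      simp [Set.pair_comm]
    rw [hspan] at hu
    obtain ⟨a, ha⟩ := hF.exists_ne hFv u
    set T := u + a • v with hT
    have hTspan : T ∉ Submodule.span K {v, r} := by
      intro h
      apply hu
      have : u = T - a • v := by rw [hT]; abel
      rw [this]
      exact Submodule.sub_mem _ h (Submodule.smul_mem _ _ (Submodule.subset_span (by simp)))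
    have hvspan : v ∉ Submodule.span K {r, T} := by
      intro h
      obtain ⟨x, y, hxy⟩ := Submodule.mem_span_pair.1 h
      by_cases hy : y = 0
      · apply hvr
        rw [← hxy, hy, zero_smul, add_zero]
        exact Submodule.smul_mem _ _ (Submodule.mem_span_singleton_self r)
      · apply hTspan
        have : T = y⁻¹ • (v - x • r) := by
          rw [← hxy, add_sub_cancel_left, inv_smul_smul₀ hy]
        rw [this]
        exact Submodule.smul_mem _ _ (Submodule.sub_mem _ (Submodule.subset_span (by simp))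
          (Submodule.smul_mem _ _ (Submodule.subset_span (by simp))))
    have hrspan : r ∉ Submodule.span K {v, T} := by
      intro h
      obtain ⟨x, y, hxy⟩ := Submodule.mem_span_pair.1 h
      by_cases hy : y = 0
      · rw [hy, zero_smul, add_zero] at hxy
        have hx : x ≠ 0 := by
          intro h0
          rw [h0, zero_smul] at hxy
          rw [← hxy] at hχ₀r
          simp at hχ₀r
        rw [← hxy, hF.smul _ _ hx] at hFr
        exact hFv hFr
      · apply hTspan
        have : T = y⁻¹ • (r - x • v) := by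
          rw [← hxy, add_sub_cancel_left, inv_smul_smul₀ hy]
        rw [this]
        exact Submodule.smul_mem _ _ (Submodule.sub_mem _ (Submodule.subset_span (by simp))
          (Submodule.smul_mem _ _ (Submodule.subset_span (by simp))))
    obtain ⟨κ₀, hκ1, hκ2⟩ := exists_functional _ hvspan
    obtain ⟨φ, hφ1, hφ2⟩ := exists_functional _ hrspan
    have hκr : κ₀ r = 0 := hκ2 r (Submodule.subset_span (by simp))
    have hκT : κ₀ T = 0 := hκ2 T (Submodule.subset_span (by simp))
    have hφv : φ v = 0 := hφ2 v (Submodule.subset_span (by simp))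
    have hφT : φ T = 0 := hφ2 T (Submodule.subset_span (by simp))
    let L : V →ₗ[K] V := LinearMap.id + (κ₀.smulRight r)
    have hL : ∀ w, L w = w + κ₀ w • r := by
      intro w; simp [L]
    have hG : IsWord K (fun w => F w - F (L w)) := hF.sub (hF.comp L)
    have hGlt : hyp (fun w => F w - F (L w)) φ < D := by
      rw [← hDeq φ hφ1]
      unfold hyp cnt
      apply Set.ncard_lt_ncard _ (Set.toFinite _)
      rw [Set.ssubset_iff_subset_ne]
      refine ⟨?_, ?_⟩
      · rintro w ⟨hw1, hw2⟩
        refine ⟨hw1, fun hFw => hw2 ?_⟩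
        have h1 : F (L w) = 0 := by
          by_contra h2
          have h3 := supp (L w) h2 (-(κ₀ w))
          rw [hL] at h3
          apply h3
          have : w + κ₀ w • r + -κ₀ w • r = w := by module
          rw [this, hFw]
        simp only [hFw, h1, sub_zero]
      · intro h
        have h1 : T ∈ {v | φ v = 0 ∧ F v ≠ 0} := ⟨hφT, ha⟩
        rw [← h] at h1
        apply h1.2
        have : L T = T := by rw [hL, hκT, zero_smul, add_zero]
        simp [this]
    have hG0 : hyp (fun w => F w - F (L w)) φ = 0 := by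
      rcases hLBG _ hG φ (by intro h0; rw [h0] at hφ1; simp at hφ1) with h | h
      · exact h
      · omega
    have h1 := hyp_eq_zero.1 hG0 v hφv
    have h2 : L v = v + r := by rw [hL, hκ1, one_smul]
    rw [h2] at h1
    exact (sub_eq_zero.1 h1).symm
  have inv1 : ∀ v : V, F (v + r) = F v := by
    intro v
    by_cases hFv : F v = 0
    · rw [hFv]
      by_contra h
      have h1 := supp _ h (-1)
      apply h1
      have : v + r + (-1 : K) • r = v := by module
      rw [this, hFv]
    · exact values v hFv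
  have inv2 : ∀ (c : K) (v : V), F (v + c • r) = F v := by
    intro c v
    by_cases hc : c = 0
    · rw [hc, zero_smul, add_zero]
    · have h1 : v + c • r = c • (c⁻¹ • v + r) := by
        rw [smul_add, smul_inv_smul₀ hc]
      rw [h1, hF.smul _ _ hc, inv1, hF.smul _ _ (inv_ne_zero hc)]
  refine ⟨by rw [hNeq, hD]; apply le_of_eq; ring, fun _ => ?_⟩
  -- the invariant space
  have hcon : ∃ v : LinearMap.ker χ₀, F v ≠ 0 := by
    have : 0 < hyp F χ₀ := by rw [hχ₀]; exact hD0
    obtain ⟨v, hv, hFv⟩ := cnt_pos_iff.1 this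
    exact ⟨⟨v, hv⟩, hFv⟩
  obtain ⟨ρ', hρ'1, hρ'2⟩ := (hTT (LinearMap.ker χ₀) (fun w => F w)
    (finrank_ker (n := k + 3) (by omega) hχ₀0) (hF.restrict _) hcon).2
    (by rw [tot_restrict, hχ₀])
  refine ⟨ρ'.map (LinearMap.ker χ₀).subtype ⊔ Submodule.span K {r}, ?_, ?_⟩
  · have h1 : ρ'.map (LinearMap.ker χ₀).subtype ⊓ Submodule.span K {r} = ⊥ := by
      rw [eq_bot_iff]
      rintro x ⟨hx1, hx2⟩
      obtain ⟨y, hy, rfl⟩ := hx1
      obtain ⟨a, ha⟩ := Submodule.mem_span_singleton.1 hx2
      have h2 : χ₀ (y : V) = 0 := y.2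
      have h3 : χ₀ (a • r) = 0 := by rw [ha]; exact h2
      rw [map_smul, hχ₀r, smul_eq_mul, mul_one] at h3
      rw [h3, zero_smul] at ha
      rw [Submodule.mem_bot, ← ha]
    have h2 := Submodule.finrank_sup_add_finrank_inf_eq
      (ρ'.map (LinearMap.ker χ₀).subtype) (Submodule.span K {r})
    have hr0 : r ≠ 0 := by
      intro h0
      rw [h0] at hχ₀r
      simp at hχ₀r
    rw [h1, finrank_bot, add_zero, finrank_span_singleton hr0] at h2
    rw [h2]
    congr 1
    rw [← hρ'1]
    exact Submodule.finrank_map_subtype_eq _ _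
  · intro x hx v
    obtain ⟨y, hy, z, hz, rfl⟩ := Submodule.mem_sup.1 hx
    obtain ⟨s, hs, rfl⟩ := hy
    obtain ⟨a, rfl⟩ := Submodule.mem_span_singleton.1 hz
    rw [← add_assoc, inv2]
    set v' : V := v - χ₀ v • r with hv'
    have hv'0 : χ₀ v' = 0 := by rw [hv', map_sub, map_smul, hχ₀r]; simp
    have e1 : v = v' + χ₀ v • r := by rw [hv']; abel
    have e2 : v + (LinearMap.ker χ₀).subtype s = (v' + (s : V)) + χ₀ v • r := by
      rw [hv']; simp only [Submodule.subtype_apply]; abel
    rw [e2, inv2]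
    have h1 := hρ'2 s hs ⟨v', hv'0⟩
    have h2 : F (v' + (s : V)) = F v' := h1
    rw [h2]
    calc F v' = F (v' + χ₀ v • r) := (inv2 _ _).symm
      _ = F v := by rw [← e1]

theorem TT_all (hq : Fintype.card K = p ^ 2) (k : ℕ) : TT.{u, v} K p k ∧ CC.{u, v} K p k := by
  induction k with
  | zero => exact ⟨TT_zero, CC_zero hq⟩
  | succ k ih =>
    have h1 := TT_succ hq ih.1 ih.2
    exact ⟨h1, CC_succ hq h1 ih.2⟩

end induct

end Pool.Agent.Helper58.Cyl
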