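import Mathlib
import Pool.Agent.Helper58.Cyl.Induct

/-!
Translation between words on vector spaces and functions on projective spaces.
-/

set_option linter.unusedSectionVars false
set_option linter.style.haveILetI false

namespace Pool.Agent.Helper58.Cyl

open Module
open scoped LinearAlgebra.Projectivization

section proj

variable {K : Type*} [Field K] [Fintype K]
variable {V : Type*} [AddCommGroup V] [Module K V]
variable {A : Type*} [AddCommGroup A]

theorem line_sum {u v : V} (hu : u ≠ 0) (hv : v ∉ Submodule.span K {u})
    (h : ∀ a : K, v + a • u ≠ 0) (c : ℙ K V → A) :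
    ∑ᶠ P ∈ {P : ℙ K V | P.submodule ≤ Submodule.span K {u, v}}, c P
      = c (Projectivization.mk K u hu) + ∑ a : K, c (Projectivization.mk K (v + a • u) (h a)) := by
  classical
  let e : Option K → ℙ K V := fun o =>
    o.elim (Projectivization.mk K u hu) (fun a => Projectivization.mk K (v + a • u) (h a))
  have he : Set.BijOn e Set.univ {P : ℙ K V | P.submodule ≤ Submodule.span K {u, v}} := by
    refine ⟨?_, ?_, ?_⟩
    · rintro (_ | a) _
      · change (Projectivization.mk K u hu).submodule ≤ _
        rw [Projectivization.submodule_mk]
        exact Submodule.span_mono (by simp)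
      · change (Projectivization.mk K (v + a • u) (h a)).submodule ≤ _
        rw [Projectivization.submodule_mk, Submodule.span_singleton_le_iff_mem]
        exact Submodule.add_mem _ (Submodule.subset_span (by simp))
          (Submodule.smul_mem _ _ (Submodule.subset_span (by simp)))
    · have key : ∀ a : K, Projectivization.mk K u hu ≠ Projectivization.mk K (v + a • u) (h a) := by
        intro a hab
        rw [Projectivization.mk_eq_mk_iff'] at hab
        obtain ⟨b, hb⟩ := hab
        have hb0 : b ≠ 0 := by
          rintro rfl
          rw [zero_smul] at hb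
          exact hu hb.symm
        apply hv
        rw [Submodule.mem_span_singleton]
        refine ⟨b⁻¹ - a, ?_⟩
        have : v = b⁻¹ • (b • (v + a • u)) - a • u := by
          rw [inv_smul_smul₀ hb0, add_sub_cancel_right]
        rw [this, hb, sub_smul]
      rintro (_ | a) _ (_ | b) _ hab
      · rfl
      · exact absurd hab (key b)
      · exact absurd hab.symm (key a)
      · have hab' : Projectivization.mk K (v + a • u) (h a)
            = Projectivization.mk K (v + b • u) (h b) := hab
        rw [Projectivization.mk_eq_mk_iff'] at hab'
        obtain ⟨t, ht⟩ := hab'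
        have h1 : (t - 1) • v = (a - t * b) • u := by
          have : (t - 1) • v - (a - t * b) • u = t • (v + b • u) - (v + a • u) := by module
          rw [← sub_eq_zero, this, ht, sub_self]
        have ht1 : t = 1 := by
          by_contra hne
          have hne' : t - 1 ≠ 0 := sub_ne_zero.2 hne
          apply hv
          rw [Submodule.mem_span_singleton]
          refine ⟨(t - 1)⁻¹ * (a - t * b), ?_⟩
          rw [mul_smul, ← h1, inv_smul_smul₀ hne']
        rw [ht1, sub_self, zero_smul, one_mul] at h1
        rcases smul_eq_zero.1 h1.symm with h2 | h2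
        · rw [sub_eq_zero.1 h2]
        · exact absurd h2 hu
    · intro P hP
      have hP' : P.submodule ≤ Submodule.span K {u, v} := hP
      rw [Projectivization.submodule_eq, Submodule.span_singleton_le_iff_mem,
        Submodule.mem_span_pair] at hP'
      obtain ⟨x, y, hxy⟩ := hP'
      rw [← P.mk_rep]
      by_cases hy : y = 0
      · refine ⟨none, Set.mem_univ _, ?_⟩
        change Projectivization.mk K u hu = _
        rw [hy, zero_smul, add_zero] at hxy
        have hx : x ≠ 0 := by
          rintro rfl
          rw [zero_smul] at hxy
          exact P.rep_nonzero hxy.symm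
        rw [Projectivization.mk_eq_mk_iff']
        exact ⟨x⁻¹, by rw [← hxy, inv_smul_smul₀ hx]⟩
      · refine ⟨some (y⁻¹ * x), Set.mem_univ _, ?_⟩
        change Projectivization.mk K (v + (y⁻¹ * x) • u) (h _) = _
        rw [Projectivization.mk_eq_mk_iff']
        refine ⟨y⁻¹, ?_⟩
        rw [← hxy, smul_add, inv_smul_smul₀ hy, ← mul_smul, add_comm]
  rw [← finsum_mem_eq_of_bijOn e he (f := fun o => c (e o)) (fun _ _ => rfl), finsum_mem_univ,
    finsum_eq_sum_of_fintype, Fintype.sum_option]
  rfl

open Classical in
/-- The word that belongs to a function on the points. -/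
noncomputable def toWord (K : Type*) [Field K] {V : Type*} [AddCommGroup V] [Module K V]
    {A : Type*} [AddCommGroup A] (c : ℙ K V → A) (v : V) : A :=
  if h : v = 0 then 0 else c (Projectivization.mk K v h)

theorem toWord_of_ne (c : ℙ K V → A) {v : V} (h : v ≠ 0) :
    toWord K c v = c (Projectivization.mk K v h) := by
  unfold toWord
  rw [dif_neg h]

theorem toWord_zero (c : ℙ K V → A) : toWord K c (0 : V) = 0 := by
  unfold toWord
  rw [dif_pos rfl]

theorem toWord_smul (c : ℙ K V → A) (a : K) (v : V) (ha : a ≠ 0) :
    toWord K c (a • v) = toWord K c v := by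
  by_cases hv : v = 0
  · rw [hv, smul_zero]
  · rw [toWord_of_ne c hv, toWord_of_ne c (smul_ne_zero ha hv)]
    congr 1
    rw [Projectivization.mk_eq_mk_iff']
    exact ⟨a, rfl⟩

theorem isWord_toWord (hA : ∀ x : A, Fintype.card K • x = 0) (c : ℙ K V → A)
    (hc : ∀ L : Submodule K V, finrank K L = 2 →
      ∑ᶠ P ∈ {P : ℙ K V | P.submodule ≤ L}, c P = 0) : IsWord K (toWord K c) where
  zero := toWord_zero c
  smul a v ha := toWord_smul c a v ha
  line u v := by
    classical
    by_cases hu : u = 0
    · subst hu
      simp only [smul_zero, add_zero, Finset.sum_const, Finset.card_univ, toWord_zero, hA]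
    · by_cases hv : v ∈ Submodule.span K {u}
      · obtain ⟨b, rfl⟩ := Submodule.mem_span_singleton.1 hv
        have h1 : ∑ a : K, toWord K c (b • u + a • u) = ∑ a : K, toWord K c (a • u) := by
          refine Fintype.sum_equiv (Equiv.addLeft b) _ _ fun a => ?_
          simp [add_smul]
        rw [h1, ← Finset.add_sum_erase Finset.univ _ (Finset.mem_univ (0 : K)), zero_smul,
          toWord_zero, zero_add]
        have h2 : ∑ a ∈ Finset.univ.erase (0 : K), toWord K c (a • u)
            = ∑ a ∈ Finset.univ.erase (0 : K), toWord K c u := by
          refine Finset.sum_congr rfl fun a ha => ?_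
          exact toWord_smul c a u (by simpa using ha)
        rw [h2, Finset.sum_const, Finset.card_erase_of_mem (Finset.mem_univ _), Finset.card_univ]
        have h3 : toWord K c u + (Fintype.card K - 1) • toWord K c u
            = Fintype.card K • toWord K c u := by
          have : Fintype.card K = (Fintype.card K - 1) + 1 := by
            have : 0 < Fintype.card K := Fintype.card_pos
            omega
          conv_rhs => rw [this, succ_nsmul']
        rw [h3, hA]
      · have h : ∀ a : K, v + a • u ≠ 0 := by
          intro a h0
          apply hv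
          rw [Submodule.mem_span_singleton]
          refine ⟨-a, ?_⟩
          rw [neg_smul, eq_neg_of_add_eq_zero_left h0]
        have h2 : finrank K (Submodule.span K {u, v}) = 2 := by
          have hli : LinearIndependent K ![u, v] := by
            rw [LinearIndependent.pair_iff]
            intro s t hst
            have ht : t = 0 := by
              by_contra ht
              apply hv
              rw [Submodule.mem_span_singleton]
              refine ⟨-(t⁻¹ * s), ?_⟩
              have : t • v = -(s • u) := by
                rw [eq_neg_iff_add_eq_zero, add_comm]; exact hst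
              rw [neg_smul, mul_smul, ← smul_neg, ← this, inv_smul_smul₀ ht]
            rw [ht, zero_smul, add_zero] at hst
            rcases smul_eq_zero.1 hst with hs | hs
            · exact ⟨hs, ht⟩
            · exact absurd hs hu
          have hr : Set.range ![u, v] = {u, v} := by
            simp [Set.pair_comm]
          have := finrank_span_eq_card hli
          rw [hr, Fintype.card_fin] at this
          exact this
        have h3 := hc _ h2
        rw [line_sum hu hv h c] at h3
        rw [toWord_of_ne c hu]
        simp only [toWord_of_ne c (h _)]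
        exact h3

/-- The function on the points that belongs to a word. -/
noncomputable def ofWord (F : V → A) (P : ℙ K V) : A := F P.rep

theorem ofWord_mk {F : V → A} (hF : IsWord K F) {v : V} (hv : v ≠ 0) :
    ofWord F (Projectivization.mk K v hv) = F v := by
  obtain ⟨a, ha⟩ := Projectivization.exists_smul_eq_mk_rep K v hv
  unfold ofWord
  rw [← ha, Units.smul_def, hF.smul _ _ a.ne_zero]

theorem ofWord_dual {F : V → A} (hF : IsWord K F) (L : Submodule K V) (hL : finrank K L = 2) :
    ∑ᶠ P ∈ {P : ℙ K V | P.submodule ≤ L}, ofWord F P = 0 := by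
  haveI : Module.Finite K L := Module.finite_of_finrank_pos (by omega)
  let b := finBasisOfFinrankEq K L hL
  set u : V := (b 0 : V) with hu
  set v : V := (b 1 : V) with hv
  have hspan : L = Submodule.span K {u, v} := by
    have h1 : Submodule.span K (Set.range b) = ⊤ := b.span_eq
    have h2 := congrArg (Submodule.map L.subtype) h1
    rw [Submodule.map_span, Submodule.map_top, Submodule.range_subtype] at h2
    rw [← h2]
    congr 1
    ext x
    simp only [Set.mem_image, Set.mem_range, Submodule.subtype_apply]
    constructor
    · rintro ⟨y, ⟨i, rfl⟩, rfl⟩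
      fin_cases i
      · left; rfl
      · right; rfl
    · rintro (h | h)
      · exact ⟨b 0, ⟨0, rfl⟩, h.symm⟩
      · exact ⟨b 1, ⟨1, rfl⟩, h.symm⟩
  have hu0 : u ≠ 0 := by
    intro h
    exact b.ne_zero 0 (Subtype.ext h)
  have hvu : v ∉ Submodule.span K {u} := by
    intro h
    obtain ⟨a, ha⟩ := Submodule.mem_span_singleton.1 h
    have h1 : a • b 0 = b 1 := Subtype.ext ha
    have h2 := b.linearIndependent
    have h3 := congrArg (fun x => b.repr x 1) h1
    simp at h3
  have h : ∀ a : K, v + a • u ≠ 0 := by
    intro a h0
    apply hvu
    rw [Submodule.mem_span_singleton]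
    refine ⟨-a, ?_⟩
    rw [neg_smul, eq_neg_of_add_eq_zero_left h0]
  rw [hspan, line_sum hu0 hvu h]
  rw [ofWord_mk hF]
  simp only [ofWord_mk hF]
  exact hF.line u v

theorem tot_toWord [Finite V] (c : ℙ K V → A) :
    tot (toWord K c) = (Fintype.card K - 1) * {P | c P ≠ 0}.ncard := by
  rw [← ncard_proj]
  unfold tot cnt
  congr 1
  ext v
  simp only [Set.mem_ofPred_eq]
  constructor
  · rintro ⟨-, h⟩
    have hv : v ≠ 0 := by
      rintro rfl
      exact h (toWord_zero c)
    exact ⟨hv, by rwa [toWord_of_ne c hv] at h⟩
  · rintro ⟨hv, h⟩
    exact ⟨trivial, by rwa [toWord_of_ne c hv]⟩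

theorem tot_ofWord [Finite V] {F : V → A} (hF : IsWord K F) :
    (Fintype.card K - 1) * {P : ℙ K V | ofWord F P ≠ 0}.ncard = tot F := by
  rw [← ncard_proj]
  unfold tot cnt
  congr 1
  ext v
  simp only [Set.mem_ofPred_eq]
  constructor
  · rintro ⟨hv, h⟩
    exact ⟨trivial, by rwa [ofWord_mk hF] at h⟩
  · rintro ⟨-, h⟩
    have hv := hF.ne_zero h
    exact ⟨hv, by rwa [ofWord_mk hF hv]⟩

theorem tot_pullback [Finite V] {W : Type*} [AddCommGroup W] [Module K W] [Finite W] {F : W → A}
    (f : V →ₗ[K] W) (hf : Function.Surjective f) :
    tot (fun v => F (f v)) ≤ tot F * Nat.card (LinearMap.ker f) := by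
  obtain ⟨s, hs⟩ := f.exists_rightInverse_of_surjective (LinearMap.range_eq_top.2 hf)
  have hs' : ∀ w, f (s w) = w := fun w => by
    have := congrArg (fun g => g w) hs
    simpa using this
  have h1 : {v | True ∧ F (f v) ≠ 0}.ncard
      ≤ ({w | True ∧ F w ≠ 0} ×ˢ (Set.univ : Set (LinearMap.ker f))).ncard := by
    apply Set.ncard_le_ncard_of_injOn
      (fun v => (f v, (⟨v - s (f v), by simp [hs']⟩ : LinearMap.ker f)))
    · rintro v ⟨-, hv⟩
      exact ⟨⟨trivial, hv⟩, Set.mem_univ _⟩
    · intro v _ w _ hvw
      have h2 : f v = f w := congrArg Prod.fst hvw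
      have h3 := congrArg Subtype.val (congrArg Prod.snd hvw)
      simp only at h3
      rw [h2] at h3
      exact sub_left_injective h3
  rw [Set.ncard_prod, Set.ncard_univ] at h1
  exact h1

end proj

end Pool.Agent.Helper58.Cyl
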